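import Pool.Agent.Lib.MP_87579d_co.Check

set_option autoImplicit false

namespace Pool.Agent.MP87579d

/-! ### specification of the list functions -/

theorem eqTake_spec : ∀ (n : ℕ) (as bs : List ℕ), eqTake n as bs = true →
    ∀ j < n, ∃ x, as[j]? = some x ∧ bs[j]? = some x := by
  intro n
  induction n with
  | zero => intro as bs _ j hj; omega
  | succ n ih =>
    intro as bs h j hj
    match as, bs with
    | [], _ => simp [eqTake] at h
    | _ :: _, [] => simp [eqTake] at h
    | a :: as, b :: bs =>
      simp only [eqTake, Bool.and_eq_true] at h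
      obtain ⟨h1, h2⟩ := h
      have hab : a = b := Nat.eq_of_beq_eq_true h1
      cases j with
      | zero => exact ⟨a, rfl, by simp [hab]⟩
      | succ j =>
        obtain ⟨x, hx1, hx2⟩ := ih as bs h2 j (by omega)
        exact ⟨x, by simpa using hx1, by simpa using hx2⟩

theorem eqTake_of : ∀ (n : ℕ) (as bs : List ℕ),
    (∀ j < n, ∃ x, as[j]? = some x ∧ bs[j]? = some x) → eqTake n as bs = true := by
  intro n
  induction n with
  | zero => intro as bs _; simp [eqTake]
  | succ n ih =>
    intro as bs h
    obtain ⟨x, hx1, hx2⟩ := h 0 (by omega)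
    match as, bs with
    | [], _ => simp at hx1
    | _ :: _, [] => simp at hx2
    | a :: as, b :: bs =>
      simp only [eqTake, Bool.and_eq_true]
      simp only [List.getElem?_cons_zero, Option.some.injEq] at hx1 hx2
      refine ⟨by rw [hx1, hx2]; exact Nat.beq_refl x, ih as bs ?_⟩
      intro j hj
      obtain ⟨y, hy1, hy2⟩ := h (j + 1) (by omega)
      exact ⟨y, by simpa using hy1, by simpa using hy2⟩

theorem msk_testBit (c : ℕ) (l : List ℕ) : ∀ i, (msk c l).testBit i = decide (l[i]? = some c) := by
  induction l with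
  | nil => intro i; simp [msk]
  | cons a l ih =>
    intro i
    have hm : msk c (a :: l) = 2 * msk c l + (if Nat.beq a c = true then 1 else 0) := rfl
    cases i with
    | zero =>
      rw [hm, Nat.testBit_zero]
      by_cases hac : a = c
      · subst hac
        simp
      · have : Nat.beq a c = false := by
          rw [Bool.eq_false_iff]; intro h; exact hac (Nat.eq_of_beq_eq_true h)
        simp [this, hac]
    | succ i =>
      rw [hm, Nat.testBit_succ]
      have : (2 * msk c l + (if Nat.beq a c = true then 1 else 0)) / 2 = msk c l := by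
        split <;> omega
      rw [this, ih i]
      simp

theorem runz_spec : ∀ (n acc M s : ℕ), acc.testBit s = true →
    (∀ j, 1 ≤ j → j ≤ n → M.testBit (s + j) = true) → runz n acc M = false := by
  intro n
  induction n with
  | zero =>
    intro acc M s h _
    rw [runz, Bool.eq_false_iff]
    intro h0
    have : acc = 0 := Nat.eq_of_beq_eq_true h0
    rw [this] at h
    simp at h
  | succ n ih =>
    intro acc M s h hM
    rw [runz, Bool.or_eq_false_iff]
    constructor
    · rw [Bool.eq_false_iff]
      intro h0
      have : acc = 0 := Nat.eq_of_beq_eq_true h0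
      rw [this] at h
      simp at h
    · apply ih _ _ s
      · rw [Nat.testBit_land, h, Nat.testBit_shiftRight]
        have := hM 1 le_rfl (by omega)
        rw [Nat.add_comm] at this
        simp [this]
      · intro j hj1 hj2
        rw [Nat.testBit_shiftRight]
        have := hM (j + 1) (by omega) (by omega)
        rw [show 1 + (s + j) = s + (j + 1) by omega]
        exact this

/-! ### words and augmented squares -/

/-- `U` has no square of length at most `n` -/
def SF (U : ℕ → ℕ) (n : ℕ) : Prop :=
  ∀ s q, 0 < q → 2 * q ≤ n → ¬ ∀ t < q, U (s + t) = U (s + t + q)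

/-- the image of `U` -/
def Wd (U : ℕ → ℕ) (i : ℕ) : ℕ := (bl (U (i / 48))).getD (i % 48) 0

/-- colours of the leaves along the image of `U` (3: no leaf) -/
def Lf (U : ℕ → ℕ) (i : ℕ) : ℕ := (lv (U (i / 48))).getD (i % 48) 3

/-- augmented square of period `q` with core starting at `s + 1` -/
def Aug (w l : ℕ → ℕ) (a b : Bool) (s q : ℕ) : Prop :=
  (w (s + q) = if a = true then l (s + 1) else w s) ∧
  (w (s + q - 1) = if b = true then l (s + 2 * q - 2) else w (s + 2 * q - 1)) ∧
  ∀ t, s < t → t + 1 < s + q → w t = w (t + q)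

theorem bl_mem_lt (x : ℕ) : ∀ y ∈ bl x, y < 3 := by
  unfold bl; split <;> decide

theorem getD_lt_of_mem (l : List ℕ) (i : ℕ) (h : ∀ y ∈ l, y < 3) : l.getD i 0 < 3 := by
  by_cases hi : i < l.length
  · rw [List.getD_eq_getElem _ _ hi]; exact h _ (List.getElem_mem hi)
  · rw [List.getD_eq_default _ _ (by omega)]; omega

theorem Wd_lt (U : ℕ → ℕ) (i : ℕ) : Wd U i < 3 := getD_lt_of_mem _ _ (bl_mem_lt _)

theorem Wd_block (U : ℕ → ℕ) (k j : ℕ) (hj : j < 48) :
    Wd U (48 * k + j) = (bl (U k)).getD j 0 := by
  unfold Wd
  rw [show (48 * k + j) / 48 = k by omega, show (48 * k + j) % 48 = j by omega]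

theorem Lf_block (U : ℕ → ℕ) (k j : ℕ) (hj : j < 48) :
    Lf U (48 * k + j) = (lv (U k)).getD j 3 := by
  unfold Lf
  rw [show (48 * k + j) / 48 = k by omega, show (48 * k + j) % 48 = j by omega]

theorem bl_getElem? (x j : ℕ) (hj : j < 48) : (bl x)[j]? = some ((bl x).getD j 0) := by
  have h : j < (bl x).length := by rw [bl_length]; exact hj
  rw [List.getElem?_eq_getElem h, List.getD_eq_getElem _ _ h]

theorem lv_getElem? (x j : ℕ) (hj : j < 48) : (lv x)[j]? = some ((lv x).getD j 3) := by
  have h : j < (lv x).length := by rw [lv_length]; exact hj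
  rw [List.getElem?_eq_getElem h, List.getD_eq_getElem _ _ h]

theorem word5_get (U : ℕ → ℕ) (k i : ℕ) (hi : i < 240) :
    (word5 (U k) (U (k + 1)) (U (k + 2)) (U (k + 3)) (U (k + 4)))[i]? =
      some (Wd U (48 * k + i)) := by
  unfold word5
  rcases Nat.lt_or_ge i 48 with h | h
  · rw [List.getElem?_append_left (by rw [bl_length]; omega), bl_getElem? _ _ h, Wd_block _ _ _ h]
  rw [List.getElem?_append_right (by rw [bl_length]; omega), bl_length]
  rcases Nat.lt_or_ge i 96 with h1 | h1
  · rw [List.getElem?_append_left (by rw [bl_length]; omega), bl_getElem? _ _ (by omega)]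
    rw [show 48 * k + i = 48 * (k + 1) + (i - 48) by omega, Wd_block _ _ _ (by omega)]
  rw [List.getElem?_append_right (by rw [bl_length]; omega), bl_length]
  rcases Nat.lt_or_ge i 144 with h2 | h2
  · rw [List.getElem?_append_left (by rw [bl_length]; omega), bl_getElem? _ _ (by omega)]
    rw [show 48 * k + i = 48 * (k + 2) + (i - 48 - 48) by omega, Wd_block _ _ _ (by omega)]
  rw [List.getElem?_append_right (by rw [bl_length]; omega), bl_length]
  rcases Nat.lt_or_ge i 192 with h3 | h3
  · rw [List.getElem?_append_left (by rw [bl_length]; omega), bl_getElem? _ _ (by omega)]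
    rw [show 48 * k + i = 48 * (k + 3) + (i - 48 - 48 - 48) by omega, Wd_block _ _ _ (by omega)]
  rw [List.getElem?_append_right (by rw [bl_length]; omega), bl_length, bl_getElem? _ _ (by omega)]
  rw [show 48 * k + i = 48 * (k + 4) + (i - 48 - 48 - 48 - 48) by omega, Wd_block _ _ _ (by omega)]

theorem leaf5_get (U : ℕ → ℕ) (k i : ℕ) (hi : i < 240) :
    (leaf5 (U k) (U (k + 1)) (U (k + 2)) (U (k + 3)) (U (k + 4)))[i]? =
      some (Lf U (48 * k + i)) := by
  unfold leaf5
  rcases Nat.lt_or_ge i 48 with h | h
  · rw [List.getElem?_append_left (by rw [lv_length]; omega), lv_getElem? _ _ h, Lf_block _ _ _ h]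
  rw [List.getElem?_append_right (by rw [lv_length]; omega), lv_length]
  rcases Nat.lt_or_ge i 96 with h1 | h1
  · rw [List.getElem?_append_left (by rw [lv_length]; omega), lv_getElem? _ _ (by omega)]
    rw [show 48 * k + i = 48 * (k + 1) + (i - 48) by omega, Lf_block _ _ _ (by omega)]
  rw [List.getElem?_append_right (by rw [lv_length]; omega), lv_length]
  rcases Nat.lt_or_ge i 144 with h2 | h2
  · rw [List.getElem?_append_left (by rw [lv_length]; omega), lv_getElem? _ _ (by omega)]
    rw [show 48 * k + i = 48 * (k + 2) + (i - 48 - 48) by omega, Lf_block _ _ _ (by omega)]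
  rw [List.getElem?_append_right (by rw [lv_length]; omega), lv_length]
  rcases Nat.lt_or_ge i 192 with h3 | h3
  · rw [List.getElem?_append_left (by rw [lv_length]; omega), lv_getElem? _ _ (by omega)]
    rw [show 48 * k + i = 48 * (k + 3) + (i - 48 - 48 - 48) by omega, Lf_block _ _ _ (by omega)]
  rw [List.getElem?_append_right (by rw [lv_length]; omega), lv_length, lv_getElem? _ _ (by omega)]
  rw [show 48 * k + i = 48 * (k + 4) + (i - 48 - 48 - 48 - 48) by omega, Lf_block _ _ _ (by omega)]

end Pool.Agent.MP87579d
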