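import Pool.Agent.Lib.MP_87579d_co.Data

set_option autoImplicit false

namespace Pool.Agent.MP87579d

theorem segCheck_all : ∀ x < 3, segCheck x = true := by decide +kernel

/-- bit mask of the positions of the letter `c` -/
def msk (c : ℕ) (l : List ℕ) : ℕ :=
  l.foldr (fun x acc => 2 * acc + (if Nat.beq x c = true then 1 else 0)) 0

/-- no bit `s` of `acc` with bits `s+1, ..., s+n` of `M` all set -/
def runz : ℕ → ℕ → ℕ → Bool
  | 0, acc, _ => Nat.beq acc 0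
  | n + 1, acc, M => Nat.beq acc 0 || runz n (acc &&& (M >>> 1)) (M >>> 1)

/-- mask of the positions `t` with `w t = w (t+q)` -/
def mM (A0 A1 A2 q : ℕ) : ℕ :=
  (A0 &&& (A0 >>> q)) ||| ((A1 &&& (A1 >>> q)) ||| (A2 &&& (A2 >>> q)))

/-- mask of left end condition -/
def mX (A0 A1 A2 L0 L1 L2 q : ℕ) : ℕ :=
  ((A0 >>> q) &&& (A0 ||| (L0 >>> 1))) |||
    (((A1 >>> q) &&& (A1 ||| (L1 >>> 1))) ||| ((A2 >>> q) &&& (A2 ||| (L2 >>> 1))))

/-- mask of right end condition -/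
def mY (A0 A1 A2 L0 L1 L2 q : ℕ) : ℕ :=
  ((A0 >>> (q - 1)) &&& ((A0 >>> (2 * q - 1)) ||| (L0 >>> (2 * q - 2)))) |||
    (((A1 >>> (q - 1)) &&& ((A1 >>> (2 * q - 1)) ||| (L1 >>> (2 * q - 2)))) |||
      ((A2 >>> (q - 1)) &&& ((A2 >>> (2 * q - 1)) ||| (L2 >>> (2 * q - 2)))))

def chkq (A0 A1 A2 L0 L1 L2 q : ℕ) : Bool :=
  runz (q - 2) (mX A0 A1 A2 L0 L1 L2 q &&& mY A0 A1 A2 L0 L1 L2 q) (mM A0 A1 A2 q)

/-- check of the periods `2, ..., n + 1` -/
def chkAll (A0 A1 A2 L0 L1 L2 : ℕ) : ℕ → Bool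
  | 0 => true
  | n + 1 => chkq A0 A1 A2 L0 L1 L2 (n + 2) && chkAll A0 A1 A2 L0 L1 L2 n

def word5 (a b c d e : ℕ) : List ℕ := bl a ++ (bl b ++ (bl c ++ (bl d ++ bl e)))
def leaf5 (a b c d e : ℕ) : List ℕ := lv a ++ (lv b ++ (lv c ++ (lv d ++ lv e)))

def chkWord (a b c d e : ℕ) : Bool :=
  chkAll (msk 0 (word5 a b c d e)) (msk 1 (word5 a b c d e)) (msk 2 (word5 a b c d e))
    (msk 0 (leaf5 a b c d e)) (msk 1 (leaf5 a b c d e)) (msk 2 (leaf5 a b c d e)) 95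

/-- the word `abcde` has no square -/
def sf5 (a b c d e : ℕ) : Bool :=
  !(Nat.beq a b) && (!(Nat.beq b c) && (!(Nat.beq c d) && (!(Nat.beq d e) &&
    (!(Nat.beq a c && Nat.beq b d) && !(Nat.beq b d && Nat.beq c e)))))

theorem chkWord_all : ∀ a < 3, ∀ b < 3, ∀ c < 3, ∀ d < 3, ∀ e < 3,
    (!(sf5 a b c d e) || chkWord a b c d e) = true := by
  decide +kernel

/-- no block occurs at an interior offset in two consecutive blocks -/
def syncOk (x y z : ℕ) : Bool :=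
  (List.range 47).all fun d => !(eqTake 48 (bl x) ((bl y ++ bl z).drop (d + 1)))

theorem sync_all : ∀ x < 3, ∀ y < 3, ∀ z < 3, syncOk x y z = true := by
  decide +kernel

theorem disc1 : ∀ x < 3, ∀ y < 3, (∀ j < 5, (bl x).getD (31 + j) 0 = (bl y).getD (31 + j) 0) →
    x = y := by
  decide +kernel

theorem disc2 : ∀ x < 3, ∀ y < 3, (∀ j < 2, (bl x).getD (41 + j) 0 = (bl y).getD (41 + j) 0) →
    x = y := by
  decide +kernel

end Pool.Agent.MP87579d
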