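import Pool.Agent.Lib.MP_87579d_co.Graph

set_option autoImplicit false

namespace Pool.Agent.MP87579d

/-- leaf positions of the image of `U` -/
def DD (U : ℕ → ℕ) (i : ℕ) : Bool := !(Nat.beq (Lf U i) 3)

theorem DD_iff (U : ℕ → ℕ) (i : ℕ) : DD U i = true ↔ Lf U i ≠ 3 := by
  unfold DD
  rw [Bool.not_eq_true', Bool.eq_false_iff]
  exact not_congr ⟨fun hb => Nat.eq_of_beq_eq_true hb, fun he => by rw [he]; rfl⟩

theorem NR_comp {V C C' : Type*} {G : SimpleGraph V} {S : Set V} {c : V → C} (h : NR G S c)
    (f : C → C') (hf : Function.Injective f) : NR G S (fun x => f (c x)) := by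
  intro n hn v h1 h2 h3 h4
  exact h n hn v h1 h2 h3 (fun i hi => hf (h4 i hi))

theorem NR_mono {V C : Type*} {G : SimpleGraph V} {S T : Set V} {c : V → C} (h : NR G S c)
    (hT : T ⊆ S) : NR G T c := by
  intro n hn v h1 h2 h3 h4
  exact h n hn v h1 h2 (fun i hi => hT (h3 i hi)) h4

/-- `S` contains the decorated spine between `A` and `B` -/
def Full (D : ℕ → Bool) (S : Set (ℕ × Bool)) (A B : ℕ) : Prop :=
  (∀ i, A ≤ i → i < B → (i, false) ∈ S) ∧ (∀ i, A ≤ i → i < B → D i = true → (i, true) ∈ S)

theorem adm_of_NR (D : ℕ → Bool) (S : Set (ℕ × Bool)) (A B : ℕ) (hS : Full D S A B)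
    (cc : ℕ × Bool → Fin 3) (h : NR (Cat D) S cc) :
    Adm (fun i => (cc (i, false)).val) (fun i => if D i = true then (cc (i, true)).val else 3) A B := by
  refine ⟨fun i => (cc (i, false)).isLt, ?_, ?_, ?_, ?_⟩
  · intro i
    have := (cc (i, true)).isLt
    split <;> omega
  · intro s hA hB he
    refine h 1 (by omega) (fun i => (s + i, false)) ?_ ?_ ?_ ?_
    · intro i hi
      exact Or.inl ⟨rfl, rfl, Or.inl rfl⟩
    · intro i _ j _ hij
      simp at hij
      exact hij
    · intro i hi
      exact hS.1 _ (by omega) (by omega)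
    · intro i hi
      have : i = 0 := by omega
      subst this
      exact Fin.ext he
  · intro s hA hB he
    by_cases hD : D s = true
    · rw [if_pos hD] at he
      refine h 1 (by omega) (fun i => if i = 0 then (s, true) else (s, false)) ?_ ?_ ?_ ?_
      · intro i hi
        have : i = 0 := by omega
        subst this
        exact Or.inr ⟨rfl, hD, by simp⟩
      · intro i hi j hj hij
        rcases (by omega : i = 0 ∨ i = 1) with rfl | rfl <;>
          rcases (by omega : j = 0 ∨ j = 1) with rfl | rfl <;> simp at hij ⊢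
      · intro i hi
        split
        · exact hS.2 _ hA hB hD
        · exact hS.1 _ hA hB
      · intro i hi
        have : i = 0 := by omega
        subst this
        exact Fin.ext he
    · rw [if_neg hD] at he
      have := (cc (s, false)).isLt
      omega
  · rintro a b s q hq hA hB ⟨h1, h2, h3⟩
    simp only at h1 h2 h3
    have ha : a = true → D (s + 1) = true := by
      intro ha
      by_contra hc
      rw [if_pos ha, if_neg hc] at h1
      have := (cc (s + q, false)).isLt
      omega
    have hb : b = true → D (s + 2 * q - 2) = true := by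
      intro hb
      by_contra hc
      rw [if_pos hb, if_neg hc] at h2
      have := (cc (s + q - 1, false)).isLt
      omega
    refine h q (by omega) (vtx a b s q) (vtx_adj D a b s q hq ha hb) (vtx_inj a b s q hq) ?_ ?_
    · intro i hi
      rcases (by omega : i = 0 ∨ i = 2 * q - 1 ∨ (i ≠ 0 ∧ i ≠ 2 * q - 1)) with h0 | h0 | ⟨h0, h0'⟩
      · rw [h0, vtx_zero]
        cases a
        · simp only [Bool.false_eq_true, if_false]
          exact hS.1 _ (by omega) (by omega)
        · simp only [if_true]
          exact hS.2 _ (by omega) (by omega) (ha rfl)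
      · rw [h0, vtx_last _ _ _ _ (by omega)]
        cases b
        · simp only [Bool.false_eq_true, if_false]
          exact hS.1 _ (by omega) (by omega)
        · simp only [if_true]
          exact hS.2 _ (by omega) (by omega) (hb rfl)
      · rw [vtx_mid _ _ _ _ _ h0 h0']
        exact hS.1 _ (by omega) (by omega)
    · intro i hi
      rcases (by omega : i = 0 ∨ i = q - 1 ∨ (0 < i ∧ i < q - 1)) with h0 | h0 | ⟨h0, h0'⟩
      · subst h0
        rw [vtx_zero, Nat.zero_add, vtx_mid _ _ _ _ _ (by omega) (by omega)]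
        apply Fin.ext
        rw [h1]
        cases a
        · simp
        · simp [ha rfl]
      · subst h0
        rw [show q - 1 + q = 2 * q - 1 by omega, vtx_last _ _ _ _ (by omega)]
        rcases Nat.lt_or_ge q 2 with hq' | hq'
        · omega
        · rw [vtx_mid _ _ _ _ _ (by omega) (by omega), show s + (q - 1) = s + q - 1 by omega]
          apply Fin.ext
          rw [h2]
          cases b
          · simp
          · simp [hb rfl]
      · rw [vtx_mid _ _ _ _ _ (by omega) (by omega), vtx_mid _ _ _ _ _ (by omega) (by omega)]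
        apply Fin.ext
        rw [h3 (s + i) (by omega) (by omega), show s + i + q = s + (i + q) by omega]

/-- the letters of the image as elements of `Fin 3` -/
def WF (U : ℕ → ℕ) (i : ℕ) : Fin 3 := ⟨Wd U i, Wd_lt U i⟩

theorem exists_norm : ∀ a b : Fin 3, a ≠ b → ∃ τ : Equiv.Perm (Fin 3), τ a = 0 ∧ τ b = 1 := by
  decide

theorem rho_perm : ∃ ρ : Equiv.Perm (Fin 3), ∀ x : Fin 3, (ρ x).val = rho x.val := by
  refine ⟨Equiv.swap 1 2, ?_⟩
  decide

theorem perm_ext : ∀ σ τ : Equiv.Perm (Fin 3), σ 0 = τ 0 → σ 2 = τ 2 → σ = τ := by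
  decide

theorem pattern_seg (U : ℕ → ℕ) (hU : ∀ i, U i < 3) (S : Set (ℕ × Bool)) (A B : ℕ)
    (hS : Full (DD U) S A B) (cc : ℕ × Bool → Fin 3) (h : NR (Cat (DD U)) S cc) (k : ℕ)
    (hA : A + 1 ≤ 48 * k + 11) (hB : 48 * k + 11 + 64 < B) :
    ∃ σ : Equiv.Perm (Fin 3), ∀ j < 62, cc (48 * k + 11 + j, false) = σ (WF U (48 * k + 11 + j)) := by
  have hne : cc (48 * k + 11, false) ≠ cc (48 * k + 11 + 1, false) := by
    have := (adm_of_NR _ S A B hS cc h).adj (48 * k + 11) (by omega) (by omega)
    intro he
    exact this (by rw [he])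
  obtain ⟨τ, h0, h1⟩ := exists_norm _ _ hne
  have hadm := adm_of_NR _ S A B hS (fun x => τ (cc x)) (NR_comp h τ τ.injective)
  have hf := seg_forced hadm U hU k hA hB (by
    intro i _ _
    by_cases hD : DD U i = true
    · rw [if_pos hD]
      have h2 := (DD_iff U i).mp hD
      have := (τ (cc (i, true))).isLt
      constructor
      · intro h3; omega
      · intro h3; exact absurd h3 h2
    · rw [if_neg hD]
      have h2 := mt (DD_iff U i).mpr hD
      constructor
      · intro _; by_contra hc; exact h2 hc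
      · intro _; rfl) (by rw [h0]; rfl) (by rw [h1]; rfl)
  obtain ⟨ρ, hρ⟩ := rho_perm
  refine ⟨ρ.trans τ.symm, ?_⟩
  intro j hj
  have := hf j hj
  rw [Equiv.trans_apply, Equiv.eq_symm_apply]
  apply Fin.ext
  rw [this, hρ]
  rfl

theorem bl_11 : ∀ x < 3, (bl x).getD 11 0 = 0 ∧ (bl x).getD 12 0 = 2 := by decide +kernel

theorem pattern_all (U : ℕ → ℕ) (hU : ∀ i, U i < 3) (S : Set (ℕ × Bool)) (A B : ℕ)
    (hS : Full (DD U) S A B) (cc : ℕ × Bool → Fin 3) (h : NR (Cat (DD U)) S cc)
    (hA : A + 1 ≤ 59) : ∀ k, 48 * (k + 1) + 11 + 64 < B →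
    ∃ σ : Equiv.Perm (Fin 3), ∀ i, 59 ≤ i → i < 48 * (k + 1) + 73 → cc (i, false) = σ (WF U i) := by
  intro k
  induction k with
  | zero =>
    intro hB
    obtain ⟨σ, hσ⟩ := pattern_seg U hU S A B hS cc h 1 (by omega) (by omega)
    refine ⟨σ, ?_⟩
    intro i h1 h2
    have := hσ (i - 59) (by omega)
    rw [show 48 * 1 + 11 + (i - 59) = i by omega] at this
    exact this
  | succ k ih =>
    intro hB
    obtain ⟨σ, hσ⟩ := ih (by omega)
    obtain ⟨τ, hτ⟩ := pattern_seg U hU S A B hS cc h (k + 1 + 1) (by omega) (by omega)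
    have hw0 : WF U (48 * (k + 1 + 1) + 11 + 0) = 0 := by
      apply Fin.ext
      show Wd U (48 * (k + 1 + 1) + 11 + 0) = 0
      rw [Nat.add_zero, Wd_block _ _ _ (by omega)]
      exact (bl_11 _ (hU _)).1
    have hw1 : WF U (48 * (k + 1 + 1) + 11 + 1) = 2 := by
      apply Fin.ext
      show Wd U (48 * (k + 1 + 1) + 11 + 1) = 2
      rw [show 48 * (k + 1 + 1) + 11 + 1 = 48 * (k + 1 + 1) + 12 by omega, Wd_block _ _ _ (by omega)]
      exact (bl_11 _ (hU _)).2
    have e0 := hτ 0 (by omega)
    have e1 := hτ 1 (by omega)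
    have e0' := hσ (48 * (k + 1 + 1) + 11 + 0) (by omega) (by omega)
    have e1' := hσ (48 * (k + 1 + 1) + 11 + 1) (by omega) (by omega)
    rw [hw0] at e0 e0'
    rw [hw1] at e1 e1'
    have : σ = τ := perm_ext σ τ (e0'.symm.trans e0) (e1'.symm.trans e1)
    refine ⟨σ, ?_⟩
    intro i h1 h2
    rcases Nat.lt_or_ge i (48 * (k + 1) + 73) with h3 | h3
    · exact hσ i h1 h3
    · have := hτ (i - (48 * (k + 1 + 1) + 11)) (by omega)
      rw [show 48 * (k + 1 + 1) + 11 + (i - (48 * (k + 1 + 1) + 11)) = i by omega] at this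
      rw [this]
      congr 1
      exact ‹σ = τ›.symm

/-- the decorated spine of `UU (m+1)` between `48` and `6 * 48^(m+1) + 200` is not colourable -/
theorem not_col (m : ℕ) (S : Set (ℕ × Bool))
    (hS : Full (DD (UU m)) S 48 (6 * 48 ^ (m + 1) + 200)) (cc : ℕ × Bool → Fin 3) :
    ¬ NR (Cat (DD (UU m))) S cc := by
  intro h
  have hp : 1 ≤ 48 ^ m := Nat.one_le_pow _ _ (by norm_num)
  obtain ⟨σ, hσ⟩ := pattern_all (UU m) (UU_lt m) S 48 (6 * 48 ^ (m + 1) + 200) hS cc h (by omega)
    (6 * 48 ^ m) (by rw [pow_succ]; omega)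
  refine h (3 * 48 ^ (m + 1)) (by positivity) (fun i => (59 + i, false)) ?_ ?_ ?_ ?_
  · intro i hi
    exact Or.inl ⟨rfl, rfl, Or.inl rfl⟩
  · intro i _ j _ hij
    simp at hij
    exact hij
  · intro i hi
    exact hS.1 _ (by omega) (by omega)
  · intro i hi
    have hpow : (48 : ℕ) ^ (m + 1) = 48 * 48 ^ m := by rw [pow_succ]; ring
    rw [hσ (59 + i) (by omega) (by omega), hσ (59 + (i + 3 * 48 ^ (m + 1))) (by omega) (by omega)]
    congr 1
    apply Fin.ext
    show Wd (UU m) (59 + i) = Wd (UU m) (59 + (i + 3 * 48 ^ (m + 1)))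
    have := UU_period (m + 1) (59 + i)
    simp only [UU] at this
    rw [← this, show 59 + i + 3 * 48 ^ (m + 1) = 59 + (i + 3 * 48 ^ (m + 1)) by omega]

theorem path1 {V C : Type*} (G : SimpleGraph V) (c : V → C) (v : ℕ → V)
    (hadj : ∀ i, i + 1 < 2 * 1 → G.Adj (v i) (v (i + 1)))
    (hc : ∀ x y, G.Adj x y → c x ≠ c y) : ¬ ∀ i < 1, c (v i) = c (v (i + 1)) := by
  intro h
  exact hc _ _ (hadj 0 (by omega)) (h 0 (by omega))

theorem small_col (U : ℕ → ℕ) (hU : ∀ i, U i < 3) (n : ℕ) (hn : 4 ≤ n) (hSF : SF U n)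
    (S : Set (ℕ × Bool)) (m0 R : ℕ) (hm0 : 1 ≤ m0) (hR : R + 2 ≤ 48 * n)
    (hS : ∀ x ∈ S, m0 ≤ x.1 ∧ x.1 < m0 + R) :
    ∃ cc : ℕ × Bool → Fin 3, NR (Cat (DD U)) S cc := by
  set cc : ℕ × Bool → Fin 3 := fun x =>
    if x.2 = true then ⟨Lf U x.1 % 3, by omega⟩ else WF U x.1 with hcc
  have c0 : ∀ i, (cc (i, false)).val = Wd U i := by intro i; simp [hcc, WF]
  have c1 : ∀ i, DD U i = true → (cc (i, true)).val = Lf U i := by
    intro i hi
    have h1 := (DD_iff U i).mp hi
    have h2 := (Lf_ne U hU i).2
    simp only [hcc, if_true]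
    exact Nat.mod_eq_of_lt (by omega)
  refine ⟨cc, ?_⟩
  intro q hq v hadj hinj hin heq
  rcases Nat.lt_or_ge q 2 with h1 | h1
  · have : q = 1 := by omega
    subst this
    refine path1 (Cat (DD U)) cc v hadj ?_ heq
    rintro ⟨i, s⟩ ⟨j, t⟩ (⟨g1, g2, g3⟩ | ⟨g1, g2, g3⟩) he
    · simp only at g1 g2 g3
      subst g1; subst g2
      have he' := congrArg Fin.val he
      rw [c0, c0] at he'
      rcases g3 with g3 | g3
      · rw [← g3] at he'; exact Wd_adj U hU i he'
      · rw [← g3] at he'; exact Wd_adj U hU j he'.symm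
    · simp only at g1 g2 g3
      subst g1
      have he' := congrArg Fin.val he
      cases s <;> cases t
      · exact g3 rfl
      · rw [c0, c1 _ g2] at he'; exact (Lf_ne U hU i).1 he'.symm
      · rw [c0, c1 _ g2] at he'; exact (Lf_ne U hU i).1 he'
      · exact g3 rfl
  · obtain ⟨a, b, s, ha, hb, hv⟩ := path_cases (DD U) q h1 v hadj hinj
      (fun i hi => by have := (hS _ (hin i hi)).1; omega)
    -- it suffices to treat a path of standard form
    have main : ∀ v' : ℕ → ℕ × Bool, (∀ i < 2 * q, v' i = vtx a b s q i) →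
        (∀ i < 2 * q, v' i ∈ S) → (∀ i < q, cc (v' i) = cc (v' (i + q))) → False := by
      intro v' hv' hin' heq'
      have p1 := hS _ (hin' 1 (by omega))
      have p2 := hS _ (hin' (2 * q - 2) (by omega))
      rw [hv' 1 (by omega), vtx_mid _ _ _ _ _ (by omega) (by omega)] at p1
      rw [hv' (2 * q - 2) (by omega), vtx_mid _ _ _ _ _ (by omega) (by omega)] at p2
      simp only at p1 p2
      refine no_aug U hU n hn hSF a b s q h1 (by omega) ⟨?_, ?_, ?_⟩
      · have e := congrArg Fin.val (heq' 0 (by omega))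
        rw [Nat.zero_add, hv' 0 (by omega), hv' q (by omega), vtx_zero,
          vtx_mid _ _ _ _ _ (by omega) (by omega), c0] at e
        rw [← e]
        cases a
        · simp only [Bool.false_eq_true, if_false]; exact c0 _
        · simp only [if_true]; exact c1 _ (ha rfl)
      · have e := congrArg Fin.val (heq' (q - 1) (by omega))
        rw [show q - 1 + q = 2 * q - 1 by omega, hv' (q - 1) (by omega),
          hv' (2 * q - 1) (by omega), vtx_last _ _ _ _ (by omega),
          vtx_mid _ _ _ _ _ (by omega) (by omega), c0] at e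
        rw [show s + q - 1 = s + (q - 1) by omega, e]
        cases b
        · simp only [Bool.false_eq_true, if_false]; exact c0 _
        · simp only [if_true]; exact c1 _ (hb rfl)
      · intro t ht1 ht2
        have e := congrArg Fin.val (heq' (t - s) (by omega))
        rw [hv' (t - s) (by omega), hv' (t - s + q) (by omega),
          vtx_mid _ _ _ _ _ (by omega) (by omega), vtx_mid _ _ _ _ _ (by omega) (by omega),
          c0, c0, show s + (t - s) = t by omega, show s + (t - s + q) = t + q by omega] at e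
        exact e
    rcases hv with hv | hv
    · exact main v hv hin heq
    · refine main (fun i => v (2 * q - 1 - i)) hv (fun i hi => hin _ (by omega)) ?_
      intro i hi
      have := heq (q - 1 - i) (by omega)
      rw [show q - 1 - i + q = 2 * q - 1 - i by omega] at this
      rw [show 2 * q - 1 - (i + q) = q - 1 - i by omega]
      exact this.symm

/-- four colours suffice -/
theorem four_col (D : ℕ → Bool) (S : Set (ℕ × Bool)) (M : ℕ)
    (hS : ∀ x ∈ S, 1 ≤ x.1 ∧ x.1 < M) :
    ∃ cc : ℕ × Bool → Fin 4, NR (Cat D) S cc := by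
  have hSF := SF_UU M
  have hM : M < 48 ^ M := Nat.lt_pow_self (by norm_num)
  set cc : ℕ × Bool → Fin 4 := fun x =>
    if x.2 = true then 3 else ⟨UU M x.1, by have := UU_lt M x.1; omega⟩ with hcc
  have c0 : ∀ i, (cc (i, false)).val = UU M i := by intro i; simp [hcc]
  have c0' : ∀ i, (cc (i, false)).val < 3 := by intro i; rw [c0]; exact UU_lt M i
  have c1 : ∀ i, (cc (i, true)).val = 3 := by intro i; simp [hcc]
  refine ⟨cc, ?_⟩
  intro q hq v hadj hinj hin heq
  rcases Nat.lt_or_ge q 2 with h1 | h1
  · have : q = 1 := by omega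
    subst this
    refine path1 (Cat D) cc v hadj ?_ heq
    have hadj' : ∀ i, UU M i ≠ UU M (i + 1) := by
      intro i he
      apply hSF i 1 (by omega) (by omega)
      intro t ht
      have : t = 0 := by omega
      subst this
      exact he
    rintro ⟨i, s⟩ ⟨j, t⟩ (⟨g1, g2, g3⟩ | ⟨g1, g2, g3⟩) he
    · simp only at g1 g2 g3
      subst g1; subst g2
      have he' := congrArg Fin.val he
      rw [c0, c0] at he'
      rcases g3 with g3 | g3
      · rw [← g3] at he'; exact hadj' i he'
      · rw [← g3] at he'; exact hadj' j he'.symm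
    · simp only at g1 g2 g3
      subst g1
      have he' := congrArg Fin.val he
      have := c0' i
      cases s <;> cases t
      · exact g3 rfl
      · rw [c1] at he'; omega
      · rw [c1] at he'; omega
      · exact g3 rfl
  · obtain ⟨a, b, s, ha, hb, hv⟩ := path_cases D q h1 v hadj hinj
      (fun i hi => (hS _ (hin i hi)).1)
    have main : ∀ v' : ℕ → ℕ × Bool, (∀ i < 2 * q, v' i = vtx a b s q i) →
        (∀ i < 2 * q, v' i ∈ S) → (∀ i < q, cc (v' i) = cc (v' (i + q))) → False := by
      intro v' hv' hin' heq'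
      have p2 := hS _ (hin' (2 * q - 2) (by omega))
      rw [hv' (2 * q - 2) (by omega), vtx_mid _ _ _ _ _ (by omega) (by omega)] at p2
      simp only at p2
      have e1 := congrArg Fin.val (heq' 0 (by omega))
      rw [Nat.zero_add, hv' 0 (by omega), hv' q (by omega), vtx_zero,
          vtx_mid _ _ _ _ _ (by omega) (by omega)] at e1
      have e2 := congrArg Fin.val (heq' (q - 1) (by omega))
      rw [show q - 1 + q = 2 * q - 1 by omega, hv' (q - 1) (by omega),
          hv' (2 * q - 1) (by omega), vtx_last _ _ _ _ (by omega),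
          vtx_mid _ _ _ _ _ (by omega) (by omega)] at e2
      cases a
      · cases b
        · simp only [Bool.false_eq_true, if_false] at e1 e2
          rw [c0, c0] at e1 e2
          apply hSF s q (by omega) (by omega)
          intro t ht
          rcases (by omega : t = 0 ∨ t = q - 1 ∨ (0 < t ∧ t < q - 1)) with h0 | h0 | ⟨h0, h0'⟩
          · subst h0; exact e1
          · subst h0
            rw [show s + (q - 1) + q = s + 2 * q - 1 by omega]
            exact e2
          · have e := congrArg Fin.val (heq' t (by omega))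
            rw [hv' t (by omega), hv' (t + q) (by omega),
              vtx_mid _ _ _ _ _ (by omega) (by omega), vtx_mid _ _ _ _ _ (by omega) (by omega),
              c0, c0] at e
            rw [e, show s + (t + q) = s + t + q by omega]
        · simp only [if_true] at e2
          rw [c1] at e2
          have := c0' (s + (q - 1))
          omega
      · simp only [if_true] at e1
        rw [c1] at e1
        have := c0' (s + q)
        omega
    rcases hv with hv | hv
    · exact main v hv hin heq
    · refine main (fun i => v (2 * q - 1 - i)) hv (fun i hi => hin _ (by omega)) ?_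
      intro i hi
      have := heq (q - 1 - i) (by omega)
      rw [show q - 1 - i + q = 2 * q - 1 - i by omega] at this
      rw [show 2 * q - 1 - (i + q) = q - 1 - i by omega]
      exact this.symm

end Pool.Agent.MP87579d
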