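import Pool.Agent.Lib.MP_87579d_co.Color

set_option autoImplicit false

namespace Pool.Agent.MP87579d

/-- no repetition along the paths of `G`, in the language of walks -/
def WNR {V C : Type*} (G : SimpleGraph V) (c : V → C) : Prop :=
  ∀ (u v : V) (p : G.Walk u v), p.IsPath →
    ∀ n : ℕ, 0 < n → p.support.length = 2 * n →
      (p.support.map c).take n ≠ (p.support.map c).drop n

theorem WNR_of_NR {V C : Type*} (G : SimpleGraph V) (c : V → C) (h : NR G Set.univ c) : WNR G c := by
  intro u v p hp n hn hlen heq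
  have hl : p.length + 1 = 2 * n := by rw [← hlen, SimpleGraph.Walk.length_support]
  refine h n hn p.getVert ?_ ?_ (fun _ _ => Set.mem_univ _) ?_
  · intro i hi
    exact p.adj_getVert_succ (by omega)
  · intro i hi j hj hij
    exact hp.getVert_injOn (by simp only [Set.mem_ofPred_eq]; omega)
      (by simp only [Set.mem_ofPred_eq]; omega) hij
  · intro i hi
    have e1 : ((p.support.map c).take n)[i]? = some (c (p.getVert i)) := by
      rw [List.getElem?_take, if_pos hi, List.getElem?_map,
        List.getElem?_eq_getElem (by omega), SimpleGraph.Walk.support_getElem_eq_getVert]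
      rfl
    have e2 : ((p.support.map c).drop n)[i]? = some (c (p.getVert (i + n))) := by
      rw [List.getElem?_drop, List.getElem?_map,
        List.getElem?_eq_getElem (by omega), SimpleGraph.Walk.support_getElem_eq_getVert,
        Nat.add_comm n i]
      rfl
    rw [heq, e2] at e1
    exact (Option.some.inj e1).symm

theorem NR_of_WNR {V C : Type*} (G : SimpleGraph V) (c : V → C) (h : WNR G c) :
    NR G Set.univ c := by
  intro n hn v hadj hinj _ heq
  obtain ⟨l, hl⟩ : ∃ l : List V, l = (List.range (2 * n)).map v := ⟨_, rfl⟩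
  have hlen : l.length = 2 * n := by simp [hl]
  have hne : l ≠ [] := by
    rw [← List.length_pos_iff, hlen]; omega
  have hget : ∀ i (hi : i < l.length), l[i] = v i := by
    intro i hi
    simp [hl]
  have hchain : l.IsChain G.Adj := by
    rw [List.isChain_iff_getElem]
    intro i hi
    rw [hget, hget]
    exact hadj i (by omega)
  have hnd : l.Nodup := by
    rw [hl, List.nodup_map_iff_inj_on List.nodup_range]
    intro i hi j hj hij
    exact hinj i (List.mem_range.mp hi) j (List.mem_range.mp hj) hij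
  have hs := SimpleGraph.Walk.support_ofSupport (G := G) hne hchain
  refine h _ _ (SimpleGraph.Walk.ofSupport l hne hchain) ?_ n hn (by rw [hs, hlen]) ?_
  · rw [SimpleGraph.Walk.isPath_def, hs]
    exact hnd
  · rw [hs]
    apply List.ext_getElem
    · simp [hlen]; omega
    · intro i h1 h2
      rw [List.getElem_take, List.getElem_drop, List.getElem_map, List.getElem_map, hget, hget,
        Nat.add_comm n i]
      apply heq
      simp at h1
      omega

theorem NR_pull {V W C : Type*} (G : SimpleGraph V) (G' : SimpleGraph W) (f : W → V)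
    (hf : Function.Injective f) (hadj : ∀ x y, G'.Adj x y → G.Adj (f x) (f y)) (S : Set V)
    (hS : ∀ x, f x ∈ S) (c : V → C) (h : NR G S c) : NR G' Set.univ (fun x => c (f x)) := by
  intro n hn v h1 h2 _ h4
  exact h n hn (fun i => f (v i)) (fun i hi => hadj _ _ (h1 i hi))
    (fun i hi j hj hij => h2 i hi j hj (hf hij)) (fun i _ => hS _) h4

/-- `Cat D` is acyclic -/
theorem cat_acyclic (D : ℕ → Bool) : (Cat D).IsAcyclic := by
  rw [SimpleGraph.isAcyclic_iff_forall_adj_isBridge]
  have key : ∀ (P : ℕ × Bool → Prop) (x y : ℕ × Bool), P x → ¬ P y →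
      (∀ u v, ((Cat D).deleteEdges {s(x, y)}).Adj u v → (P u ↔ P v)) →
      ¬ ((Cat D).deleteEdges {s(x, y)}).Reachable x y := by
    intro P x y hx hy hP hr
    obtain ⟨w⟩ := hr
    have : ∀ {a b : ℕ × Bool} (w : ((Cat D).deleteEdges {s(x, y)}).Walk a b), P a ↔ P b := by
      intro a b w
      induction w with
      | nil => rfl
      | cons h _ ih => exact (hP _ _ h).trans ih
    exact hy ((this w).mp hx)
  have spine : ∀ i : ℕ, ¬ ((Cat D).deleteEdges {s((i, false), (i + 1, false))}).Reachable
      (i, false) (i + 1, false) := by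
    intro i
    apply key (fun x => x.1 ≤ i) _ _ (by simp) (by simp)
    rintro ⟨a, s⟩ ⟨b, t⟩ hadj
    rw [SimpleGraph.deleteEdges_adj] at hadj
    obtain ⟨h1, h2⟩ := hadj
    rcases h1 with ⟨g1, g2, g3⟩ | ⟨g1, g2, g3⟩
    · simp only at g1 g2 g3
      subst g1; subst g2
      have hne1 : ¬ (a = i ∧ b = i + 1) := by
        rintro ⟨rfl, rfl⟩; exact h2 rfl
      have hne2 : ¬ (a = i + 1 ∧ b = i) := by
        rintro ⟨rfl, rfl⟩; exact h2 (by simp [Sym2.eq_swap])
      simp only
      omega
    · simp only at g1 ⊢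
      rw [g1]
  have leaf : ∀ i : ℕ, ¬ ((Cat D).deleteEdges {s((i, true), (i, false))}).Reachable
      (i, true) (i, false) := by
    intro i
    apply key (fun x => x = (i, true)) _ _ rfl (by simp)
    rintro ⟨a, s⟩ ⟨b, t⟩ hadj
    rw [SimpleGraph.deleteEdges_adj] at hadj
    obtain ⟨h1, h2⟩ := hadj
    rcases h1 with ⟨g1, g2, g3⟩ | ⟨g1, g2, g3⟩
    · simp only at g1 g2 g3
      subst g1; subst g2
      simp
    · simp only at g1 g3
      subst g1
      constructor
      · intro h
        simp only [Prod.mk.injEq] at h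
        obtain ⟨rfl, rfl⟩ := h
        have ht : t = false := by
          cases t
          · rfl
          · exact absurd rfl g3
        subst ht
        exact absurd rfl h2
      · intro h
        simp only [Prod.mk.injEq] at h
        obtain ⟨rfl, rfl⟩ := h
        have hs : s = false := by
          cases s
          · rfl
          · exact absurd rfl g3
        subst hs
        exact absurd (by simp [Sym2.eq_swap]) h2
  rintro ⟨a, s⟩ ⟨b, t⟩ hadj
  rw [SimpleGraph.isBridge_iff]
  rcases hadj with ⟨g1, g2, g3⟩ | ⟨g1, g2, g3⟩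
  · simp only at g1 g2 g3
    subst g1; subst g2
    rcases g3 with g3 | g3
    · subst g3; exact spine a
    · subst g3
      rw [Sym2.eq_swap, SimpleGraph.reachable_comm]
      exact spine b
  · simp only at g1 g3
    subst g1
    cases s <;> cases t
    · exact absurd rfl g3
    · rw [Sym2.eq_swap, SimpleGraph.reachable_comm]
      exact leaf a
    · exact leaf a
    · exact absurd rfl g3

/-- a connected set meets the spine at every position between two of its positions -/
theorem conn_mem (D : ℕ → Bool) (S : Set (ℕ × Bool)) (hS : ((Cat D).induce S).Connected)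
    (x y : ℕ × Bool) (hx : x ∈ S) (hy : y ∈ S) (i : ℕ) (hxi : x.1 < i) (hyi : i ≤ y.1) :
    (i, false) ∈ S := by
  by_contra hc
  have step : ∀ u v : S, ((Cat D).induce S).Adj u v → (u.1.1 < i ↔ v.1.1 < i) := by
    rintro ⟨⟨a, s⟩, ha⟩ ⟨⟨b, t⟩, hb⟩ hadj
    rw [SimpleGraph.comap_adj] at hadj
    rcases hadj with ⟨g1, g2, g3⟩ | ⟨g1, g2, g3⟩
    · simp only [Function.Embedding.subtype_apply] at g1 g2 g3
      subst g1; subst g2
      have ha' : a ≠ i := by rintro rfl; exact hc ha
      have hb' : b ≠ i := by rintro rfl; exact hc hb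
      simp only
      omega
    · simp only [Function.Embedding.subtype_apply] at g1
      simp only
      rw [g1]
  obtain ⟨w⟩ := hS.preconnected ⟨x, hx⟩ ⟨y, hy⟩
  have : ∀ {a b : S} (w : ((Cat D).induce S).Walk a b), (a.1.1 < i ↔ b.1.1 < i) := by
    intro a b w
    induction w with
    | nil => rfl
    | cons h _ ih => exact (step _ _ h).trans ih
  have := (this w).mp hxi
  simp only at this
  omega

/-- extent of a connected finite set -/
theorem conn_extent (D : ℕ → Bool) (S : Finset (ℕ × Bool))
    (hS : ((Cat D).induce (S : Set (ℕ × Bool))).Connected) :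
    ∃ m0, (∀ x ∈ S, m0 ≤ x.1 ∧ x.1 < m0 + (S.card + 1)) ∧ ∃ x ∈ S, x.1 = m0 := by
  obtain ⟨⟨z, hz⟩⟩ := hS.nonempty
  have hz' : z ∈ S := hz
  obtain ⟨x0, hx0, hmin⟩ := Finset.exists_min_image S (fun x => x.1) ⟨z, hz'⟩
  obtain ⟨x1, hx1, hmax⟩ := Finset.exists_max_image S (fun x => x.1) ⟨z, hz'⟩
  refine ⟨x0.1, ?_, x0, hx0, rfl⟩
  intro x hx
  refine ⟨hmin x hx, ?_⟩
  have hsub : (Finset.Ioc x0.1 x1.1).image (fun i => ((i, false) : ℕ × Bool)) ⊆ S := by
    intro y hy
    rw [Finset.mem_image] at hy
    obtain ⟨i, hi, rfl⟩ := hy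
    rw [Finset.mem_Ioc] at hi
    exact conn_mem D S hS x0 x1 hx0 hx1 i hi.1 hi.2
  have hcard := Finset.card_le_card hsub
  rw [Finset.card_image_of_injective _ (by intro a b hab; simpa using hab), Nat.card_Ioc] at hcard
  have := hmax x hx
  omega

/-- the vertices of the decorated spine between `A` and `B` -/
def seg (D : ℕ → Bool) (A B : ℕ) : Finset (ℕ × Bool) :=
  (Finset.Ico A B).image (fun i => ((i, false) : ℕ × Bool)) ∪
    ((Finset.Ico A B).filter (fun i => D i = true)).image (fun i => ((i, true) : ℕ × Bool))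

theorem mem_seg_false (D : ℕ → Bool) (A B i : ℕ) : (i, false) ∈ seg D A B ↔ A ≤ i ∧ i < B := by
  simp [seg]

theorem mem_seg_true (D : ℕ → Bool) (A B i : ℕ) :
    (i, true) ∈ seg D A B ↔ (A ≤ i ∧ i < B) ∧ D i = true := by
  simp [seg]

theorem seg_full (D : ℕ → Bool) (A B : ℕ) : Full D (seg D A B : Set (ℕ × Bool)) A B := by
  constructor
  · intro i h1 h2
    exact (mem_seg_false D A B i).mpr ⟨h1, h2⟩
  · intro i h1 h2 h3
    exact (mem_seg_true D A B i).mpr ⟨⟨h1, h2⟩, h3⟩

theorem seg_pos (D : ℕ → Bool) (A B : ℕ) : ∀ x ∈ seg D A B, A ≤ x.1 ∧ x.1 < B := by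
  rintro ⟨i, s⟩ h
  cases s
  · exact (mem_seg_false D A B i).mp h
  · exact ((mem_seg_true D A B i).mp h).1

theorem seg_connected (D : ℕ → Bool) (A B : ℕ) (hAB : A < B) :
    ((Cat D).induce (seg D A B : Set (ℕ × Bool))).Connected := by
  rw [SimpleGraph.connected_iff_exists_forall_reachable]
  have hA : (A, false) ∈ (seg D A B : Set (ℕ × Bool)) := (mem_seg_false D A B A).mpr ⟨le_rfl, hAB⟩
  refine ⟨⟨(A, false), hA⟩, ?_⟩
  have h1 : ∀ k, ∀ h : A + k < B, ((Cat D).induce (seg D A B : Set (ℕ × Bool))).Reachable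
      ⟨(A, false), hA⟩ ⟨(A + k, false), (mem_seg_false D A B (A + k)).mpr ⟨by omega, h⟩⟩ := by
    intro k
    induction k with
    | zero => intro h; exact SimpleGraph.Reachable.refl _
    | succ k ih =>
      intro h
      refine (ih (by omega)).trans (SimpleGraph.Adj.reachable ?_)
      rw [SimpleGraph.comap_adj]
      exact Or.inl ⟨rfl, rfl, Or.inl rfl⟩
  rintro ⟨⟨i, s⟩, hi⟩
  cases s
  · have := (mem_seg_false D A B i).mp hi
    obtain ⟨k, rfl⟩ := Nat.exists_eq_add_of_le this.1
    exact h1 k this.2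
  · have := (mem_seg_true D A B i).mp hi
    obtain ⟨k, rfl⟩ := Nat.exists_eq_add_of_le this.1.1
    refine (h1 k this.1.2).trans (SimpleGraph.Adj.reachable ?_)
    rw [SimpleGraph.comap_adj]
    exact Or.inr ⟨rfl, this.2, by simp⟩

end Pool.Agent.MP87579d
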