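import Mathlib

set_option autoImplicit false

/-!
Data for the 48-uniform morphism used for `MP_87579d_co`: `bl x` is the image of the letter `x`,
`lv x` gives the colours of the leaves attached along the block (`3` means: no leaf).
-/

namespace Pool.Agent.MP87579d

/-- image of a letter (letters are `0`, `1`, `2`; every other number is treated as `2`) -/
def bl : ℕ → List ℕ
  | 0 => [0, 1, 2, 0, 1, 0, 2, 1, 0, 1, 2, 0, 2, 1, 0, 2, 0, 1, 2, 0, 2, 1, 0, 1, 2, 1, 0, 2, 0, 1, 2, 0, 2, 1, 0, 2, 0, 1, 2, 1, 0, 2, 1, 2, 0, 1, 2, 1]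
  | 1 => [0, 1, 2, 0, 1, 0, 2, 1, 0, 1, 2, 0, 2, 1, 0, 2, 0, 1, 2, 0, 2, 1, 0, 1, 2, 1, 0, 2, 1, 2, 0, 1, 2, 1, 0, 2, 0, 1, 2, 0, 2, 1, 0, 2, 0, 1, 2, 1]
  | _ => [0, 1, 2, 0, 1, 0, 2, 1, 0, 1, 2, 0, 2, 1, 0, 2, 0, 1, 2, 0, 2, 1, 0, 1, 2, 1, 0, 2, 1, 2, 0, 1, 2, 1, 0, 1, 2, 0, 2, 1, 0, 2, 0, 1, 2, 0, 2, 1]

/-- colours of the leaves along a block, `3` where there is no leaf -/
def lv : ℕ → List ℕ
  | 0 => [1, 2, 0, 3, 0, 3, 0, 2, 1, 2, 3, 2, 3, 2, 1, 0, 1, 2, 3, 2, 3, 2, 1, 3, 1, 0, 3, 0, 3, 0, 1, 2, 1, 0, 3, 0, 1, 3, 1, 0, 2, 3, 2, 3, 2, 0, 1, 3]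
  | 1 => [1, 2, 0, 3, 0, 3, 0, 2, 1, 2, 3, 2, 3, 2, 1, 0, 1, 2, 3, 2, 3, 2, 1, 3, 1, 0, 2, 3, 2, 3, 2, 0, 1, 0, 3, 0, 3, 0, 1, 2, 1, 0, 3, 0, 3, 0, 1, 3]
  | _ => [1, 2, 0, 3, 0, 3, 0, 2, 1, 2, 3, 2, 3, 2, 1, 0, 1, 2, 3, 2, 3, 2, 1, 3, 1, 0, 2, 3, 2, 3, 2, 0, 1, 3, 1, 2, 3, 2, 3, 2, 1, 0, 1, 2, 3, 2, 3, 2]


theorem bl_length (x : ℕ) : (bl x).length = 48 := by
  unfold bl; split <;> rfl

theorem lv_length (x : ℕ) : (lv x).length = 48 := by
  unfold lv; split <;> rfl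

/-- compare the first `n` letters of two lists -/
def eqTake : ℕ → List ℕ → List ℕ → Bool
  | 0, _, _ => true
  | n + 1, a :: as, b :: bs => Nat.beq a b && eqTake n as bs
  | _ + 1, _, _ => false

/-- adding the head of `ws` (newest spine colour) closes a square of period `p` -/
def badSpine (ws ls : List ℕ) (p : ℕ) : Bool :=
  eqTake (p - 1) ws (ws.drop p) &&
    (Nat.beq (ws.getD (p - 1) 7) (ws.getD (2 * p - 1) 8) ||
      Nat.beq (ws.getD (p - 1) 7) (ls.getD (2 * p - 2) 8))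

/-- a leaf of colour `l` at the head of `ws` closes a square of period `p` -/
def badLeaf (l : ℕ) (ws ls : List ℕ) (p : ℕ) : Bool :=
  Nat.beq l (ws.getD (p - 1) 7) && (eqTake (p - 2) ws (ws.drop p) &&
    (Nat.beq (ws.getD (p - 2) 7) (ws.getD (2 * p - 2) 8) ||
      Nat.beq (ws.getD (p - 2) 7) (ls.getD (2 * p - 3) 8)))

def anyBadSpine (ws ls : List ℕ) : Bool :=
  badSpine ws ls 2 || (badSpine ws ls 3 || (badSpine ws ls 4 || (badSpine ws ls 5 ||
    (badSpine ws ls 6 || (badSpine ws ls 7 || badSpine ws ls 8)))))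

def anyBadLeaf (l : ℕ) (ws ls : List ℕ) : Bool :=
  badLeaf l ws ls 2 || (badLeaf l ws ls 3 || (badLeaf l ws ls 4 || (badLeaf l ws ls 5 ||
    (badLeaf l ws ls 6 || (badLeaf l ws ls 7 || badLeaf l ws ls 8)))))

def eqList : List ℕ → List ℕ → Bool
  | [], [] => true
  | a :: as, b :: bs => Nat.beq a b && eqList as bs
  | _, _ => false

/-- exhaustive search: all admissible continuations end in the expected spine colouring -/
def dfs (ex : List ℕ) : List Bool → List ℕ → List ℕ → Bool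
  | [], ws, _ => eqList ws.tail ex
  | d :: ds, ws, ls =>
    let step (c : ℕ) : Bool :=
      Nat.beq c (ws.getD 0 7) ||
        (match d with
          | false => anyBadSpine (c :: ws) (3 :: ls) || dfs ex ds (c :: ws) (3 :: ls)
          | true => anyBadSpine (c :: ws) (3 :: ls) ||
            ((Nat.beq 0 c || (anyBadLeaf 0 (c :: ws) (3 :: ls) || dfs ex ds (c :: ws) (0 :: ls))) &&
            ((Nat.beq 1 c || (anyBadLeaf 1 (c :: ws) (3 :: ls) || dfs ex ds (c :: ws) (1 :: ls))) &&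
            (Nat.beq 2 c || (anyBadLeaf 2 (c :: ws) (3 :: ls) || dfs ex ds (c :: ws) (2 :: ls))))))
    step 0 && (step 1 && step 2)

/-- leaf pattern of the segment of length 63 starting at offset 11 of the block of `x` -/
def segD (x : ℕ) : List Bool :=
  (((lv x).drop 11) ++ ((lv 0).take 26)).map (fun a => !(Nat.beq a 3))

/-- normalised colours -/
def rho : ℕ → ℕ
  | 0 => 0
  | 1 => 2
  | _ => 1

def segE (x : ℕ) : List ℕ :=
  (((bl x).drop 11) ++ ((bl 0).take 25)).map rho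

/-- check of the segment of block `x`, the first two spine colours being `0`, `1`; the leaf at
position 0 of the segment has two possible colours, position 1 has no leaf -/
def segCheck (x : ℕ) : Bool :=
  dfs (segE x).reverse ((segD x).drop 2) [1, 0] [3, 1] &&
    dfs (segE x).reverse ((segD x).drop 2) [1, 0] [3, 2]

end Pool.Agent.MP87579d
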