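import Pool.Agent.Lib.MP_87579d_co.Critical

set_option autoImplicit false

namespace Pool.Agent.MP87579d

theorem exists_critical (N : ℕ) : ∃ m : ℕ, N ≤ m ∧ ∃ G : SimpleGraph (Fin m), G.IsTree ∧
    (¬ ∃ c : Fin m → Fin 3, WNR G c) ∧ (∃ c : Fin m → Fin 4, WNR G c) ∧
    ∀ H : G.Subgraph, H.Connected → H ≠ ⊤ → ∃ c : H.verts → Fin 3, WNR H.coe c := by
  classical
  set U := UU N with hU
  set D := DD U with hD
  set B := 6 * 48 ^ (N + 1) + 200 with hB
  -- minimal bad set
  let Bad : Finset (ℕ × Bool) → Prop := fun S => S ⊆ seg D 48 B ∧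
    ((Cat D).induce (S : Set (ℕ × Bool))).Connected ∧
    ¬ ∃ cc : ℕ × Bool → Fin 3, NR (Cat D) (S : Set (ℕ × Bool)) cc
  have hbad0 : Bad (seg D 48 B) := by
    refine ⟨subset_rfl, seg_connected D 48 B (by omega), ?_⟩
    rintro ⟨cc, hcc⟩
    exact not_col N _ (seg_full D 48 B) cc hcc
  have hex : ∃ n, ∃ S, S.card = n ∧ Bad S := ⟨_, _, rfl, hbad0⟩
  obtain ⟨S, hScard, hSsub, hSconn, hSbad⟩ := Nat.find_spec hex
  have hmin : ∀ T, Bad T → S.card ≤ T.card := by
    intro T hT
    rw [hScard]
    exact Nat.find_min' hex ⟨T, rfl, hT⟩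
  have hSpos : ∀ x ∈ S, 48 ≤ x.1 ∧ x.1 < B := fun x hx => seg_pos D 48 B x (hSsub hx)
  -- it is large
  have hlarge : N ≤ S.card := by
    by_contra hlt
    apply hSbad
    obtain ⟨m0, hm0, x, hx, hxm⟩ := conn_extent D S hSconn
    have h48 : N < 48 ^ N := Nat.lt_pow_self (by norm_num)
    have hx48 := (hSpos x hx).1
    refine small_col U (UU_lt N) (4 * 48 ^ N) ?_ (SF_UU N) _ m0 (S.card + 1) (by omega) (by omega) ?_
    · omega
    · intro y hy
      exact hm0 y hy
  -- transfer to `Fin m`
  let e : Fin S.card ≃ S := S.equivFin.symm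
  let emb : Fin S.card ↪ ℕ × Bool := ⟨fun i => (e i).1, fun i j h => e.injective (Subtype.ext h)⟩
  have hemb : ∀ i, emb i ∈ S := fun i => (e i).2
  have hinv : ∀ x (hx : x ∈ S), emb (e.symm ⟨x, hx⟩) = x := by
    intro x hx
    show ((e (e.symm ⟨x, hx⟩)) : ℕ × Bool) = x
    rw [Equiv.apply_symm_apply]
  set G : SimpleGraph (Fin S.card) := (Cat D).comap emb with hG
  have hGadj : ∀ i j, G.Adj i j ↔ (Cat D).Adj (emb i) (emb j) := fun i j => Iff.rfl
  -- colourings of subsets transfer
  have hpull : ∀ (C : Type) (cc : ℕ × Bool → C), NR (Cat D) (S : Set (ℕ × Bool)) cc →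
      WNR G (fun i => cc (emb i)) := by
    intro C cc h
    exact WNR_of_NR _ _ (NR_pull (Cat D) G emb emb.injective (fun _ _ h => h) _ hemb cc h)
  refine ⟨S.card, hlarge, G, ?_, ?_, ?_, ?_⟩
  · -- tree
    rw [SimpleGraph.isTree_iff]
    refine ⟨?_, (cat_acyclic D).of_comap emb⟩
    refine SimpleGraph.Connected.map (G := (Cat D).induce (S : Set (ℕ × Bool)))
      ⟨fun x => e.symm ⟨x.1, x.2⟩, ?_⟩ ?_ hSconn
    · intro x y hxy
      rw [hGadj, hinv, hinv]
      exact hxy
    · intro i
      refine ⟨⟨emb i, hemb i⟩, ?_⟩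
      apply emb.injective
      show emb (e.symm ⟨emb i, hemb i⟩) = emb i
      rw [hinv]
  · -- not 3-colourable
    rintro ⟨c, hc⟩
    apply hSbad
    have hc' := NR_of_WNR G c hc
    have hne : Nonempty (Fin S.card) := by
      obtain ⟨⟨z, hz⟩⟩ := hSconn.nonempty
      exact ⟨e.symm ⟨z, hz⟩⟩
    let g : ℕ × Bool → Fin S.card := fun x =>
      if h : x ∈ S then e.symm ⟨x, h⟩ else Classical.choice hne
    have hg : ∀ x (hx : x ∈ S), emb (g x) = x := by
      intro x hx
      simp only [g, dif_pos hx]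
      exact hinv x hx
    refine ⟨fun x => c (g x), ?_⟩
    intro n hn v hadj hinj hin heq
    refine hc' n hn (fun i => g (v i)) ?_ ?_ (fun _ _ => Set.mem_univ _) heq
    · intro i hi
      rw [hGadj, hg _ (hin i (by omega)), hg _ (hin (i + 1) (by omega))]
      exact hadj i hi
    · intro i hi j hj hij
      apply hinj i hi j hj
      rw [← hg _ (hin i hi), ← hg _ (hin j hj)]
      exact congrArg emb hij
  · -- 4-colourable
    obtain ⟨cc, hcc⟩ := four_col D (S : Set (ℕ × Bool)) B (fun x hx => by
      have := hSpos x hx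
      omega)
    exact ⟨_, hpull _ cc hcc⟩
  · -- proper connected subgraphs
    intro H hH hne
    have hGtree : G.IsTree := by
      rw [SimpleGraph.isTree_iff]
      refine ⟨?_, (cat_acyclic D).of_comap emb⟩
      refine SimpleGraph.Connected.map (G := (Cat D).induce (S : Set (ℕ × Bool)))
        ⟨fun x => e.symm ⟨x.1, x.2⟩, ?_⟩ ?_ hSconn
      · intro x y hxy
        rw [hGadj, hinv, hinv]
        exact hxy
      · intro i
        refine ⟨⟨emb i, hemb i⟩, ?_⟩
        apply emb.injective
        show emb (e.symm ⟨emb i, hemb i⟩) = emb i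
        rw [hinv]
    -- the vertex set is proper
    have hverts : H.verts ≠ Set.univ := by
      intro huniv
      apply hne
      have hspan : H.IsSpanning := by
        intro v; rw [huniv]; exact Set.mem_univ v
      have hconn : H.spanningCoe.Connected := by
        have hc := hH.coe
        refine SimpleGraph.Connected.map (G := H.coe) ⟨fun x => x.1, ?_⟩ ?_ hc
        · intro x y hxy
          exact hxy
        · intro v
          exact ⟨⟨v, hspan v⟩, rfl⟩
      have hle : H.spanningCoe ≤ G := H.spanningCoe_le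
      have hm := (SimpleGraph.isTree_iff_minimal_connected.mp hGtree).2 hconn hle
      apply SimpleGraph.Subgraph.ext
      · rw [huniv]; rfl
      · ext x y
        constructor
        · intro h; exact H.adj_sub h
        · intro h; exact hm h
    -- the corresponding subset
    let T : Finset (ℕ × Bool) := (Finset.univ.filter (fun i => i ∈ H.verts)).map emb
    have hT : ∀ i, emb i ∈ T ↔ i ∈ H.verts := by
      intro i
      simp only [T, Finset.mem_map', Finset.mem_filter, Finset.mem_univ, true_and]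
    have hTS : T ⊆ S := by
      intro x hx
      obtain ⟨i, _, rfl⟩ := Finset.mem_map.mp hx
      exact hemb i
    have hTlt : T.card < S.card := by
      apply Finset.card_lt_card
      refine ⟨hTS, ?_⟩
      intro hsub
      apply hverts
      ext i
      simp only [Set.mem_univ, iff_true]
      exact (hT i).mp (hsub (hemb i))
    have hTconn : ((Cat D).induce (T : Set (ℕ × Bool))).Connected := by
      have hc := hH.coe
      refine SimpleGraph.Connected.map (G := H.coe)
        ⟨fun x => ⟨emb x.1, (hT x.1).mpr x.2⟩, ?_⟩ ?_ hc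
      · intro x y hxy
        exact H.adj_sub hxy
      · rintro ⟨x, hx⟩
        obtain ⟨i, hi, rfl⟩ := Finset.mem_map.mp hx
        have : i ∈ H.verts := (hT i).mp hx
        exact ⟨⟨i, this⟩, rfl⟩
    have hTcol : ∃ cc : ℕ × Bool → Fin 3, NR (Cat D) (T : Set (ℕ × Bool)) cc := by
      by_contra hc
      have := hmin T ⟨hTS.trans hSsub, hTconn, hc⟩
      omega
    obtain ⟨cc, hcc⟩ := hTcol
    refine ⟨fun x => cc (emb x.1), ?_⟩
    apply WNR_of_NR
    refine NR_pull (Cat D) H.coe (fun x : H.verts => emb x.1) ?_ ?_ _ ?_ cc hcc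
    · intro x y hxy
      exact Subtype.ext (emb.injective hxy)
    · intro x y hxy
      exact H.adj_sub hxy
    · intro x
      exact (hT x.1).mpr x.2

end Pool.Agent.MP87579d
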