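import Pool.Agent.Lib.MP_87579d_co.Morph

set_option autoImplicit false

namespace Pool.Agent.MP87579d

/-- the last `i` values of `f` before `s0 + i`, most recent first -/
def hist (f : ℕ → ℕ) (s0 : ℕ) : ℕ → List ℕ
  | 0 => []
  | i + 1 => f (s0 + i) :: hist f s0 i

theorem hist_length (f : ℕ → ℕ) (s0 : ℕ) : ∀ i, (hist f s0 i).length = i
  | 0 => rfl
  | i + 1 => by simp [hist, hist_length f s0 i]

theorem hist_get (f : ℕ → ℕ) (s0 : ℕ) : ∀ (i j : ℕ), j < i →
    (hist f s0 i)[j]? = some (f (s0 + i - 1 - j)) := by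
  intro i
  induction i with
  | zero => intro j hj; omega
  | succ i ih =>
    intro j hj
    cases j with
    | zero =>
      simp only [hist, List.getElem?_cons_zero, Option.some.injEq]
      congr 1
    | succ j =>
      simp only [hist, List.getElem?_cons_succ]
      rw [ih j (by omega)]
      congr 2
      omega

theorem hist_get_inv (f : ℕ → ℕ) (s0 i j x : ℕ) (h : (hist f s0 i)[j]? = some x) :
    j < i ∧ x = f (s0 + i - 1 - j) := by
  rcases Nat.lt_or_ge j i with h1 | h1
  · rw [hist_get f s0 i j h1] at h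
    exact ⟨h1, (Option.some.inj h).symm⟩
  · rw [List.getElem?_eq_none (by rw [hist_length]; omega)] at h
    exact absurd h (by simp)

theorem getD_eq_of_ne (l : List ℕ) (i d x : ℕ) (h : l.getD i d = x) (hx : x ≠ d) :
    l[i]? = some x := by
  rw [List.getD_eq_getElem?_getD] at h
  cases hl : l[i]? with
  | none => rw [hl] at h; simp at h; exact absurd h.symm hx
  | some y => rw [hl] at h; simp at h; rw [h]

/-- The colouring `w` of the spine and `l` of the leaves (`3`: no leaf) is admissible between
`A` and `B`. -/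
structure Adm (w l : ℕ → ℕ) (A B : ℕ) : Prop where
  lt : ∀ i, w i < 3
  le : ∀ i, l i ≤ 3
  adj : ∀ s, A ≤ s → s + 1 < B → w s ≠ w (s + 1)
  leaf : ∀ s, A ≤ s → s < B → l s ≠ w s
  aug : ∀ a b s q, 2 ≤ q → A ≤ s → s + 2 * q ≤ B → ¬ Aug w l a b s q

variable {w l : ℕ → ℕ} {A B : ℕ}

theorem badSpine_sound (h : Adm w l A B) (s0 i p : ℕ) (hA : A + 1 ≤ s0) (hp : 2 ≤ p)
    (hB : s0 + i < B) :
    badSpine (hist w s0 (i + 1)) (3 :: hist l s0 i) p = false := by
  rw [Bool.eq_false_iff]
  intro hb
  unfold badSpine at hb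
  rw [Bool.and_eq_true, Bool.or_eq_true] at hb
  obtain ⟨h1, h2⟩ := hb
  have h1' := eqTake_spec _ _ _ h1
  have key : ∀ j < p - 1, j + p < i + 1 ∧ w (s0 + i - j) = w (s0 + i - j - p) := by
    intro j hj
    obtain ⟨x, hx1, hx2⟩ := h1' j hj
    rw [List.getElem?_drop] at hx2
    obtain ⟨_, e1⟩ := hist_get_inv _ _ _ _ _ hx1
    obtain ⟨g2, e2⟩ := hist_get_inv _ _ _ _ _ hx2
    refine ⟨by omega, ?_⟩
    rw [show s0 + i - j = s0 + (i + 1) - 1 - j by omega, ← e1, e2]
    congr 1
    omega
  have hk0 := key 0 (by omega)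
  have hk1 := key (p - 2) (by omega)
  have hgd : (hist w s0 (i + 1)).getD (p - 1) 7 = w (s0 + i - (p - 1)) := by
    rw [List.getD_eq_getElem?_getD, hist_get _ _ _ _ (by omega)]
    simp only [Option.getD_some]
    congr 1
  have hwlt := h.lt (s0 + i - (p - 1))
  rcases h2 with h2 | h2
  · have h3 := (Nat.eq_of_beq_eq_true h2).symm
    rw [hgd] at h3
    have h4 := getD_eq_of_ne _ _ _ _ h3 (by omega)
    obtain ⟨g3, e3⟩ := hist_get_inv _ _ _ _ _ h4
    refine h.aug false false (s0 + i - (2 * p - 1)) p hp (by omega) (by omega) ⟨?_, ?_, ?_⟩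
    · simp only [Bool.false_eq_true, if_false]
      rw [show s0 + i - (2 * p - 1) + p = s0 + i - (p - 1) by omega, e3]
      congr 1
    · simp only [Bool.false_eq_true, if_false]
      rw [show s0 + i - (2 * p - 1) + p - 1 = s0 + i - 0 - p by omega,
        show s0 + i - (2 * p - 1) + 2 * p - 1 = s0 + i - 0 by omega]
      exact hk0.2.symm
    · intro t ht1 ht2
      have := (key (s0 + i - p - t) (by omega)).2
      rw [show s0 + i - (s0 + i - p - t) = t + p by omega, show t + p - p = t by omega] at this
      exact this.symm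
  · have h3 := (Nat.eq_of_beq_eq_true h2).symm
    rw [hgd] at h3
    have h4 := getD_eq_of_ne _ _ _ _ h3 (by omega)
    obtain ⟨m, hm⟩ : ∃ m, 2 * p - 2 = m + 1 := ⟨2 * p - 3, by omega⟩
    rw [hm, List.getElem?_cons_succ] at h4
    obtain ⟨g3, e3⟩ := hist_get_inv _ _ _ _ _ h4
    refine h.aug true false (s0 + i - (2 * p - 1)) p hp (by omega) (by omega) ⟨?_, ?_, ?_⟩
    · simp only [if_true]
      rw [show s0 + i - (2 * p - 1) + p = s0 + i - (p - 1) by omega, e3]
      congr 1
      omega
    · simp only [Bool.false_eq_true, if_false]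
      rw [show s0 + i - (2 * p - 1) + p - 1 = s0 + i - 0 - p by omega,
        show s0 + i - (2 * p - 1) + 2 * p - 1 = s0 + i - 0 by omega]
      exact hk0.2.symm
    · intro t ht1 ht2
      have := (key (s0 + i - p - t) (by omega)).2
      rw [show s0 + i - (s0 + i - p - t) = t + p by omega, show t + p - p = t by omega] at this
      exact this.symm

theorem badLeaf_sound (h : Adm w l A B) (s0 i p : ℕ) (hA : A + 1 ≤ s0) (hp : 2 ≤ p)
    (hB : s0 + i + 1 < B) (hl : l (s0 + i) < 3) :
    badLeaf (l (s0 + i)) (hist w s0 (i + 1)) (3 :: hist l s0 i) p = false := by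
  rw [Bool.eq_false_iff]
  intro hb
  unfold badLeaf at hb
  rw [Bool.and_eq_true, Bool.and_eq_true, Bool.or_eq_true] at hb
  obtain ⟨h0, h1, h2⟩ := hb
  have h1' := eqTake_spec _ _ _ h1
  have key : ∀ j < p - 2, j + p < i + 1 ∧ w (s0 + i - j) = w (s0 + i - j - p) := by
    intro j hj
    obtain ⟨x, hx1, hx2⟩ := h1' j hj
    rw [List.getElem?_drop] at hx2
    obtain ⟨_, e1⟩ := hist_get_inv _ _ _ _ _ hx1
    obtain ⟨g2, e2⟩ := hist_get_inv _ _ _ _ _ hx2
    refine ⟨by omega, ?_⟩
    rw [show s0 + i - j = s0 + (i + 1) - 1 - j by omega, ← e1, e2]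
    congr 1
    omega
  have h0' := getD_eq_of_ne _ _ _ _ (Nat.eq_of_beq_eq_true h0).symm (by omega)
  obtain ⟨g0, e0⟩ := hist_get_inv _ _ _ _ _ h0'
  have hgd : (hist w s0 (i + 1)).getD (p - 2) 7 = w (s0 + i - (p - 2)) := by
    rw [List.getD_eq_getElem?_getD, hist_get _ _ _ _ (by omega)]
    simp only [Option.getD_some]
    congr 1
  have hwlt := h.lt (s0 + i - (p - 2))
  rcases h2 with h2 | h2
  · have h3 := (Nat.eq_of_beq_eq_true h2).symm
    rw [hgd] at h3
    have h4 := getD_eq_of_ne _ _ _ _ h3 (by omega)
    obtain ⟨g3, e3⟩ := hist_get_inv _ _ _ _ _ h4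
    refine h.aug false true (s0 + i - (2 * p - 2)) p hp (by omega) (by omega) ⟨?_, ?_, ?_⟩
    · simp only [Bool.false_eq_true, if_false]
      rw [show s0 + i - (2 * p - 2) + p = s0 + i - (p - 2) by omega, e3]
      congr 1
    · simp only [if_true]
      rw [show s0 + i - (2 * p - 2) + p - 1 = s0 + (i + 1) - 1 - (p - 1) by omega,
        show s0 + i - (2 * p - 2) + 2 * p - 2 = s0 + i by omega]
      exact e0.symm
    · intro t ht1 ht2
      have := (key (s0 + i - p - t) (by omega)).2
      rw [show s0 + i - (s0 + i - p - t) = t + p by omega, show t + p - p = t by omega] at this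
      exact this.symm
  · have h3 := (Nat.eq_of_beq_eq_true h2).symm
    rw [hgd] at h3
    have h4 := getD_eq_of_ne _ _ _ _ h3 (by omega)
    obtain ⟨m, hm⟩ : ∃ m, 2 * p - 3 = m + 1 := ⟨2 * p - 4, by omega⟩
    rw [hm, List.getElem?_cons_succ] at h4
    obtain ⟨g3, e3⟩ := hist_get_inv _ _ _ _ _ h4
    refine h.aug true true (s0 + i - (2 * p - 2)) p hp (by omega) (by omega) ⟨?_, ?_, ?_⟩
    · simp only [if_true]
      rw [show s0 + i - (2 * p - 2) + p = s0 + i - (p - 2) by omega, e3]
      congr 1
      omega
    · simp only [if_true]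
      rw [show s0 + i - (2 * p - 2) + p - 1 = s0 + (i + 1) - 1 - (p - 1) by omega,
        show s0 + i - (2 * p - 2) + 2 * p - 2 = s0 + i by omega]
      exact e0.symm
    · intro t ht1 ht2
      have := (key (s0 + i - p - t) (by omega)).2
      rw [show s0 + i - (s0 + i - p - t) = t + p by omega, show t + p - p = t by omega] at this
      exact this.symm

theorem eqList_spec : ∀ as bs : List ℕ, eqList as bs = true → as = bs := by
  intro as
  induction as with
  | nil => intro bs h; cases bs with
    | nil => rfl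
    | cons b bs => simp [eqList] at h
  | cons a as ih =>
    intro bs h
    cases bs with
    | nil => simp [eqList] at h
    | cons b bs =>
      simp only [eqList, Bool.and_eq_true] at h
      rw [Nat.eq_of_beq_eq_true h.1, ih bs h.2]

theorem pick3 (F : ℕ → Bool) (c : ℕ) (hc : c < 3) (h : (F 0 && (F 1 && F 2)) = true) :
    F c = true := by
  simp only [Bool.and_eq_true] at h
  rcases (by omega : c = 0 ∨ c = 1 ∨ c = 2) with rfl | rfl | rfl
  · exact h.1
  · exact h.2.1
  · exact h.2.2

theorem dfs_sound (h : Adm w l A B) (ex : List ℕ) (s0 : ℕ) (hA : A + 1 ≤ s0) :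
    ∀ (ds : List Bool) (i : ℕ), 1 ≤ i → s0 + i + ds.length + 1 < B →
    (∀ j (hj : j < ds.length), ds[j] = true ↔ l (s0 + i + j) ≠ 3) →
    dfs ex ds (hist w s0 i) (hist l s0 i) = true →
    (hist w s0 (i + ds.length)).tail = ex := by
  intro ds
  induction ds with
  | nil =>
    intro i _ _ _ hd
    simp only [dfs] at hd
    exact eqList_spec _ _ hd
  | cons d ds ih =>
    intro i hi hB hD hd
    simp only [List.length_cons] at hB ⊢
    -- the step for the actual colour
    have hw3 := h.lt (s0 + i)
    have hhead : Nat.beq (w (s0 + i)) ((hist w s0 i).getD 0 7) = false := by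
      rw [Bool.eq_false_iff]
      intro hb
      have h1 := (Nat.eq_of_beq_eq_true hb).symm
      have h2 := getD_eq_of_ne _ _ _ _ h1 (by omega)
      obtain ⟨_, e⟩ := hist_get_inv _ _ _ _ _ h2
      have := h.adj (s0 + i - 1) (by omega) (by omega)
      rw [show s0 + i - 1 + 1 = s0 + i by omega, show s0 + i - 1 - 0 = s0 + i - 1 by omega] at *
      exact this e.symm
    have hbs : anyBadSpine (w (s0 + i) :: hist w s0 i) (3 :: hist l s0 i) = false := by
      have hb : ∀ p, 2 ≤ p → badSpine (w (s0 + i) :: hist w s0 i) (3 :: hist l s0 i) p = false :=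
        fun p hp => badSpine_sound h s0 i p hA hp (by omega)
      unfold anyBadSpine
      rw [hb 2 (by omega), hb 3 (by omega), hb 4 (by omega), hb 5 (by omega), hb 6 (by omega),
        hb 7 (by omega), hb 8 (by omega)]
      rfl
    have hD0 := hD 0 (by simp)
    simp only [List.getElem_cons_zero, Nat.add_zero] at hD0
    have hfin : dfs ex ds (hist w s0 (i + 1)) (hist l s0 (i + 1)) = true := by
      cases d with
      | false =>
        have h1 := pick3 (fun c => Nat.beq c ((hist w s0 i).getD 0 7) ||
          (anyBadSpine (c :: hist w s0 i) (3 :: hist l s0 i) ||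
            dfs ex ds (c :: hist w s0 i) (3 :: hist l s0 i))) _ hw3 hd
        rw [hhead, hbs, Bool.false_or, Bool.false_or] at h1
        have : l (s0 + i) = 3 := by
          by_contra hc
          exact Bool.false_ne_true (hD0.mpr hc)
        simp only [hist]
        rw [this]
        exact h1
      | true =>
        have h1 := pick3 (fun c => Nat.beq c ((hist w s0 i).getD 0 7) ||
          (anyBadSpine (c :: hist w s0 i) (3 :: hist l s0 i) ||
            ((Nat.beq 0 c || (anyBadLeaf 0 (c :: hist w s0 i) (3 :: hist l s0 i) ||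
              dfs ex ds (c :: hist w s0 i) (0 :: hist l s0 i))) &&
            ((Nat.beq 1 c || (anyBadLeaf 1 (c :: hist w s0 i) (3 :: hist l s0 i) ||
              dfs ex ds (c :: hist w s0 i) (1 :: hist l s0 i))) &&
            (Nat.beq 2 c || (anyBadLeaf 2 (c :: hist w s0 i) (3 :: hist l s0 i) ||
              dfs ex ds (c :: hist w s0 i) (2 :: hist l s0 i))))))) _ hw3 hd
        rw [hhead, hbs, Bool.false_or, Bool.false_or] at h1
        have hl3 : l (s0 + i) ≠ 3 := hD0.mp rfl
        have hl := h.le (s0 + i)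
        have hlw := h.leaf (s0 + i) (by omega) (by omega)
        have hlb : Nat.beq (l (s0 + i)) (w (s0 + i)) = false := by
          rw [Bool.eq_false_iff]; intro hb; exact hlw (Nat.eq_of_beq_eq_true hb)
        have hbl : anyBadLeaf (l (s0 + i)) (w (s0 + i) :: hist w s0 i) (3 :: hist l s0 i) = false := by
          have hb : ∀ p, 2 ≤ p →
              badLeaf (l (s0 + i)) (w (s0 + i) :: hist w s0 i) (3 :: hist l s0 i) p = false :=
            fun p hp => badLeaf_sound h s0 i p hA hp (by omega) (by omega)
          unfold anyBadLeaf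
          rw [hb 2 (by omega), hb 3 (by omega), hb 4 (by omega), hb 5 (by omega), hb 6 (by omega),
            hb 7 (by omega), hb 8 (by omega)]
          rfl
        have h2 := pick3 (fun e => Nat.beq e (w (s0 + i)) ||
          (anyBadLeaf e (w (s0 + i) :: hist w s0 i) (3 :: hist l s0 i) ||
            dfs ex ds (w (s0 + i) :: hist w s0 i) (e :: hist l s0 i))) (l (s0 + i)) (by omega) h1
        rw [hlb, hbl, Bool.false_or, Bool.false_or] at h2
        exact h2
    have := ih (i + 1) (by omega) (by omega) (by
      intro j hj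
      have := hD (j + 1) (by simpa using hj)
      simp only [List.getElem_cons_succ] at this
      rw [this, show s0 + i + (j + 1) = s0 + (i + 1) + j by omega]) hfin
    rw [show i + (ds.length + 1) = i + 1 + ds.length by omega]
    exact this

theorem common_start : ∀ y < 3, (bl y).take 26 = (bl 0).take 26 ∧ (lv y).take 26 = (lv 0).take 26 := by
  decide +kernel

theorem seg_start : ∀ x < 3, (lv x).getD 11 3 ≠ 3 ∧ (lv x).getD 12 3 = 3 := by
  decide +kernel

theorem segE_get (U : ℕ → ℕ) (hU : ∀ i, U i < 3) (k j : ℕ) (hj : j < 62) :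
    (segE (U k))[j]? = some (rho (Wd U (48 * k + 11 + j))) := by
  unfold segE
  rw [List.getElem?_map]
  rcases Nat.lt_or_ge j 37 with h | h
  · rw [List.getElem?_append_left (by rw [List.length_drop, bl_length]; omega),
      List.getElem?_drop, bl_getElem? _ _ (by omega), ← Wd_block _ _ _ (by omega)]
    simp only [Option.map_some]
    congr 3
    omega
  · rw [List.getElem?_append_right (by rw [List.length_drop, bl_length]; omega),
      List.length_drop, bl_length]
    have e : (bl 0).take 25 = (bl (U (k + 1))).take 25 := by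
      have := (common_start _ (hU (k + 1))).1
      have h2 := congrArg (List.take 25) this
      rw [List.take_take, List.take_take] at h2
      simpa using h2.symm
    rw [e, List.getElem?_take, if_pos (by omega), bl_getElem? _ _ (by omega),
      ← Wd_block _ _ _ (by omega)]
    simp only [Option.map_some]
    congr 3
    omega

theorem segD_get (U : ℕ → ℕ) (hU : ∀ i, U i < 3) (k j : ℕ) (hj : j < 63) :
    (segD (U k))[j]? = some (!(Nat.beq (Lf U (48 * k + 11 + j)) 3)) := by
  unfold segD
  rw [List.getElem?_map]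
  rcases Nat.lt_or_ge j 37 with h | h
  · rw [List.getElem?_append_left (by rw [List.length_drop, lv_length]; omega),
      List.getElem?_drop, lv_getElem? _ _ (by omega), ← Lf_block _ _ _ (by omega)]
    simp only [Option.map_some]
    congr 4
    omega
  · rw [List.getElem?_append_right (by rw [List.length_drop, lv_length]; omega),
      List.length_drop, lv_length]
    rw [← (common_start _ (hU (k + 1))).2, List.getElem?_take, if_pos (by omega),
      lv_getElem? _ _ (by omega), ← Lf_block _ _ _ (by omega)]
    simp only [Option.map_some]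
    congr 4
    omega

theorem segD_length (x : ℕ) : (segD x).length = 63 := by
  unfold segD
  rw [List.length_map, List.length_append, List.length_drop, List.length_take, lv_length,
    lv_length]
  rfl

theorem segE_length (x : ℕ) : (segE x).length = 62 := by
  unfold segE
  rw [List.length_map, List.length_append, List.length_drop, List.length_take, bl_length,
    bl_length]
  rfl

theorem seg_forced (h : Adm w l A B) (U : ℕ → ℕ) (hU : ∀ i, U i < 3) (k : ℕ)
    (hA : A + 1 ≤ 48 * k + 11) (hB : 48 * k + 11 + 64 < B)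
    (hl : ∀ i, 48 * k + 11 ≤ i → i < 48 * k + 11 + 63 → (l i = 3 ↔ Lf U i = 3))
    (h0 : w (48 * k + 11) = 0) (h1 : w (48 * k + 11 + 1) = 1) :
    ∀ j < 62, w (48 * k + 11 + j) = rho (Wd U (48 * k + 11 + j)) := by
  have hck := segCheck_all (U k) (hU k)
  unfold segCheck at hck
  rw [Bool.and_eq_true] at hck
  have hs := seg_start (U k) (hU k)
  rw [← Lf_block U k 11 (by omega), ← Lf_block U k 12 (by omega)] at hs
  have hl0 : l (48 * k + 11) ≠ 3 := fun e => hs.1 ((hl _ le_rfl (by omega)).mp e)
  have hl1 : l (48 * k + 11 + 1) = 3 := (hl _ (by omega) (by omega)).mpr hs.2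
  have hl0' := h.le (48 * k + 11)
  have hl0'' := h.leaf (48 * k + 11) (by omega) (by omega)
  have hw2 : hist w (48 * k + 11) 2 = [1, 0] := by
    simp only [hist, Nat.add_zero]
    rw [h0, h1]
  have hl2 : hist l (48 * k + 11) 2 = [3, l (48 * k + 11)] := by
    simp only [hist, Nat.add_zero]
    rw [hl1]
  have hd : dfs (segE (U k)).reverse ((segD (U k)).drop 2) (hist w (48 * k + 11) 2)
      (hist l (48 * k + 11) 2) = true := by
    rw [hw2, hl2]
    rcases (by omega : l (48 * k + 11) = 1 ∨ l (48 * k + 11) = 2) with h2 | h2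
    · rw [h2]; exact hck.1
    · rw [h2]; exact hck.2
  have hlen : ((segD (U k)).drop 2).length = 61 := by rw [List.length_drop, segD_length]
  have hfin := dfs_sound h (segE (U k)).reverse (48 * k + 11) hA _ 2 (by omega)
    (by rw [hlen]; omega) (by
      intro j hj
      rw [hlen] at hj
      have e1 : ((segD (U k)).drop 2)[j]? = some (!(Nat.beq (Lf U (48 * k + 11 + (2 + j))) 3)) := by
        rw [List.getElem?_drop, segD_get U hU k (2 + j) (by omega)]
      rw [List.getElem?_eq_getElem (by rw [hlen]; exact hj), Option.some.injEq] at e1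
      rw [e1, show 48 * k + 11 + 2 + j = 48 * k + 11 + (2 + j) by omega]
      have := hl (48 * k + 11 + (2 + j)) (by omega) (by omega)
      rw [Ne, this, Bool.not_eq_true', Bool.eq_false_iff]
      exact not_congr ⟨fun hb => Nat.eq_of_beq_eq_true hb, fun he => by rw [he]; rfl⟩) hd
  rw [hlen] at hfin
  have hfin' : hist w (48 * k + 11) 62 = (segE (U k)).reverse := hfin
  intro j hj
  have e1 := hist_get w (48 * k + 11) 62 (61 - j) (by omega)
  rw [hfin', List.getElem?_reverse (by rw [segE_length]; omega), segE_length,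
    show 62 - 1 - (61 - j) = j by omega, segE_get U hU k j hj, Option.some.injEq] at e1
  rw [e1]
  congr 1
  omega

end Pool.Agent.MP87579d
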