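import Pool.Agent.Lib.MP_87579d_co.Force

set_option autoImplicit false

namespace Pool.Agent.MP87579d

/-- the caterpillar with spine `ℕ` and a leaf at every `i` with `D i` -/
def Cat (D : ℕ → Bool) : SimpleGraph (ℕ × Bool) where
  Adj x y := (x.2 = false ∧ y.2 = false ∧ (x.1 + 1 = y.1 ∨ y.1 + 1 = x.1)) ∨
    (x.1 = y.1 ∧ D x.1 = true ∧ x.2 ≠ y.2)
  symm := ⟨by
    rintro x y (⟨h1, h2, h3⟩ | ⟨h1, h2, h3⟩)
    · exact Or.inl ⟨h2, h1, h3.symm⟩
    · exact Or.inr ⟨h1.symm, h1 ▸ h2, h3.symm⟩⟩
  loopless := ⟨by
    rintro x (⟨h1, h2, h3⟩ | ⟨h1, h2, h3⟩)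
    · omega
    · exact h3 rfl⟩

/-- `c` has no repetition along a path of `G` inside `S` -/
def NR {V C : Type*} (G : SimpleGraph V) (S : Set V) (c : V → C) : Prop :=
  ∀ n, 0 < n → ∀ v : ℕ → V, (∀ i, i + 1 < 2 * n → G.Adj (v i) (v (i + 1))) →
    (∀ i < 2 * n, ∀ j < 2 * n, v i = v j → i = j) → (∀ i < 2 * n, v i ∈ S) →
    ¬ ∀ i < n, c (v i) = c (v (i + n))

/-- the vertices of the path underlying an augmented square -/
def vtx (a b : Bool) (s q i : ℕ) : ℕ × Bool :=
  if i = 0 then (if a = true then (s + 1, true) else (s, false))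
  else if i = 2 * q - 1 then (if b = true then (s + 2 * q - 2, true) else (s + 2 * q - 1, false))
  else (s + i, false)

theorem vtx_zero (a b : Bool) (s q : ℕ) :
    vtx a b s q 0 = if a = true then (s + 1, true) else (s, false) := by simp [vtx]

theorem vtx_last (a b : Bool) (s q : ℕ) (hq : 1 ≤ q) :
    vtx a b s q (2 * q - 1) =
      if b = true then (s + 2 * q - 2, true) else (s + 2 * q - 1, false) := by
  have h1 : 2 * q - 1 ≠ 0 := by omega
  simp [vtx, h1]

theorem vtx_mid (a b : Bool) (s q i : ℕ) (h1 : i ≠ 0) (h2 : i ≠ 2 * q - 1) :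
    vtx a b s q i = (s + i, false) := by simp [vtx, h1, h2]

theorem vtx_adj (D : ℕ → Bool) (a b : Bool) (s q : ℕ) (hq : 2 ≤ q)
    (ha : a = true → D (s + 1) = true) (hb : b = true → D (s + 2 * q - 2) = true) :
    ∀ i, i + 1 < 2 * q → (Cat D).Adj (vtx a b s q i) (vtx a b s q (i + 1)) := by
  intro i hi
  rcases Nat.eq_zero_or_pos i with h0 | h0
  · subst h0
    rw [vtx_zero, vtx_mid a b s q (0 + 1) (by omega) (by omega)]
    cases a
    · left; simp
    · right
      refine ⟨rfl, ha rfl, by simp⟩
  · rcases Nat.lt_or_ge (i + 1) (2 * q - 1) with h1 | h1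
    · rw [vtx_mid a b s q i (by omega) (by omega), vtx_mid a b s q (i + 1) (by omega) (by omega)]
      left
      refine ⟨rfl, rfl, Or.inl (by simp only; omega)⟩
    · have : i + 1 = 2 * q - 1 := by omega
      rw [this, vtx_last a b s q (by omega), vtx_mid a b s q i (by omega) (by omega)]
      cases b
      · left
        refine ⟨rfl, rfl, Or.inl ?_⟩
        simp only [Bool.false_eq_true, if_false]
        omega
      · right
        simp only [if_true]
        have e : s + i = s + 2 * q - 2 := by omega
        refine ⟨e, ?_, by simp⟩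
        rw [e]; exact hb rfl

theorem vtx_inj (a b : Bool) (s q : ℕ) (hq : 2 ≤ q) :
    ∀ i < 2 * q, ∀ j < 2 * q, vtx a b s q i = vtx a b s q j → i = j := by
  intro i hi j hj h
  rcases Nat.eq_zero_or_pos i with hi0 | hi0 <;> rcases Nat.eq_zero_or_pos j with hj0 | hj0
  · omega
  · subst hi0
    rw [vtx_zero] at h
    rcases Nat.lt_or_ge j (2 * q - 1) with h1 | h1
    · rw [vtx_mid a b s q j (by omega) (by omega)] at h
      cases a <;> simp at h
      omega
    · have : j = 2 * q - 1 := by omega
      rw [this, vtx_last a b s q (by omega)] at h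
      cases a <;> cases b <;> simp at h <;> omega
  · subst hj0
    rw [vtx_zero] at h
    rcases Nat.lt_or_ge i (2 * q - 1) with h1 | h1
    · rw [vtx_mid a b s q i (by omega) (by omega)] at h
      cases a <;> simp at h
      omega
    · have : i = 2 * q - 1 := by omega
      rw [this, vtx_last a b s q (by omega)] at h
      cases a <;> cases b <;> simp at h <;> omega
  · rcases Nat.lt_or_ge i (2 * q - 1) with h1 | h1 <;> rcases Nat.lt_or_ge j (2 * q - 1) with h2 | h2
    · rw [vtx_mid a b s q i (by omega) (by omega), vtx_mid a b s q j (by omega) (by omega)] at h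
      simp at h
      omega
    · have : j = 2 * q - 1 := by omega
      rw [this, vtx_last a b s q (by omega), vtx_mid a b s q i (by omega) (by omega)] at h
      cases b <;> simp at h
      omega
    · have : i = 2 * q - 1 := by omega
      rw [this, vtx_last a b s q (by omega), vtx_mid a b s q j (by omega) (by omega)] at h
      cases b <;> simp at h
      omega
    · omega

/-- neighbours of a leaf -/
theorem leaf_nbr (D : ℕ → Bool) (i : ℕ) (x : ℕ × Bool) (h : (Cat D).Adj (i, true) x) :
    x = (i, false) ∧ D i = true := by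
  obtain ⟨y, t⟩ := x
  rcases h with ⟨h1, _, _⟩ | ⟨h1, h2, h3⟩
  · simp at h1
  · simp only at h1 h2 h3
    refine ⟨?_, h2⟩
    cases t
    · rw [h1]
    · exact absurd rfl h3

theorem spine_nbr (D : ℕ → Bool) (i : ℕ) (x : ℕ × Bool) (h : (Cat D).Adj (i, false) x) :
    x = (i + 1, false) ∨ (1 ≤ i ∧ x = (i - 1, false)) ∨ (x = (i, true) ∧ D i = true) := by
  obtain ⟨y, t⟩ := x
  rcases h with ⟨_, h2, h3⟩ | ⟨h1, h2, h3⟩
  · simp only at h2 h3
    subst h2
    rcases h3 with h3 | h3
    · left; rw [← h3]
    · right; left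
      refine ⟨by omega, ?_⟩
      congr 1; omega
  · simp only at h1 h2 h3
    right; right
    cases t
    · exact absurd rfl h3
    · exact ⟨by rw [h1], h2⟩

/-- classification of the paths with an even number `2 n ≥ 4` of vertices, all of whose
positions are at least `1` -/
theorem path_cases (D : ℕ → Bool) (n : ℕ) (hn : 2 ≤ n) (v : ℕ → ℕ × Bool)
    (hadj : ∀ i, i + 1 < 2 * n → (Cat D).Adj (v i) (v (i + 1)))
    (hinj : ∀ i < 2 * n, ∀ j < 2 * n, v i = v j → i = j)
    (hpos : ∀ i < 2 * n, 1 ≤ (v i).1) :
    ∃ (a b : Bool) (s : ℕ), (a = true → D (s + 1) = true) ∧ (b = true → D (s + 2 * n - 2) = true) ∧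
      ((∀ i < 2 * n, v i = vtx a b s n i) ∨ (∀ i < 2 * n, v (2 * n - 1 - i) = vtx a b s n i)) := by
  -- interior vertices are on the spine
  have hint : ∀ i, 1 ≤ i → i + 1 < 2 * n → (v i).2 = false := by
    intro i h1 h2
    by_contra hc
    have hc' : (v i).2 = true := by simpa using hc
    have e : v i = ((v i).1, true) := by rw [← hc']
    have a1 := hadj i h2
    have a2 := (hadj (i - 1) (by omega)).symm
    rw [show i - 1 + 1 = i by omega] at a2
    rw [e] at a1 a2
    have b1 := (leaf_nbr D _ _ a1).1
    have b2 := (leaf_nbr D _ _ a2).1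
    have := hinj (i + 1) h2 (i - 1) (by omega) (b1.trans b2.symm)
    omega
  have hsp : ∀ i, 1 ≤ i → i + 1 < 2 * n → v i = ((v i).1, false) := by
    intro i h1 h2
    rw [← hint i h1 h2]
  -- two consecutive interior vertices
  have hstep : ∀ i, 1 ≤ i → i + 2 < 2 * n → (v (i + 1)).1 = (v i).1 + 1 ∨ (v (i + 1)).1 + 1 = (v i).1 := by
    intro i h1 h2
    have a1 := hadj i (by omega)
    rw [hsp i h1 (by omega)] at a1
    rcases spine_nbr D _ _ a1 with h | ⟨hp, h⟩ | ⟨h, _⟩
    · left; rw [h]
    · right; rw [h]; simp only; omega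
    · exfalso
      have := hint (i + 1) (by omega) (by omega)
      rw [h] at this
      simp at this
  -- monotonicity
  have hup : (v 2).1 = (v 1).1 + 1 → ∀ i, 1 ≤ i → i + 1 < 2 * n → (v i).1 + 1 = (v 1).1 + i := by
    intro h0 i
    induction i using Nat.strong_induction_on with
    | _ i ih =>
      intro h1 h2
      rcases (by omega : i = 1 ∨ i = 2 ∨ 3 ≤ i) with h | h | h
      · subst h; omega
      · subst h; omega
      · have e1 := ih (i - 1) (by omega) (by omega) (by omega)
        have e2 := ih (i - 2) (by omega) (by omega) (by omega)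
        have hs := hstep (i - 1) (by omega) (by omega)
        rw [show i - 1 + 1 = i by omega] at hs
        rcases hs with hs | hs
        · omega
        · exfalso
          have : v i = v (i - 2) := by
            rw [hsp i (by omega) h2, hsp (i - 2) (by omega) (by omega)]
            congr 1
            omega
          have := hinj i (by omega) (i - 2) (by omega) this
          omega
  have hdown : (v 2).1 + 1 = (v 1).1 → ∀ i, 1 ≤ i → i + 1 < 2 * n → (v i).1 + i = (v 1).1 + 1 := by
    intro h0 i
    induction i using Nat.strong_induction_on with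
    | _ i ih =>
      intro h1 h2
      rcases (by omega : i = 1 ∨ i = 2 ∨ 3 ≤ i) with h | h | h
      · subst h; omega
      · subst h; omega
      · have e1 := ih (i - 1) (by omega) (by omega) (by omega)
        have e2 := ih (i - 2) (by omega) (by omega) (by omega)
        have hs := hstep (i - 1) (by omega) (by omega)
        rw [show i - 1 + 1 = i by omega] at hs
        rcases hs with hs | hs
        · exfalso
          have : v i = v (i - 2) := by
            rw [hsp i (by omega) h2, hsp (i - 2) (by omega) (by omega)]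
            congr 1
            omega
          have := hinj i (by omega) (i - 2) (by omega) this
          omega
        · omega
  have hfirst := hadj 0 (by omega)
  have hlast := hadj (2 * n - 2) (by omega)
  rw [show 2 * n - 2 + 1 = 2 * n - 1 by omega] at hlast
  have hfirst' := hfirst.symm
  rw [Nat.zero_add] at hfirst'
  rw [hsp 1 le_rfl (by omega)] at hfirst'
  rw [hsp (2 * n - 2) (by omega) (by omega)] at hlast
  have hp0 := hpos 0 (by omega)
  have hp1 := hpos 1 (by omega)
  have hpl := hpos (2 * n - 1) (by omega)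
  have hpl2 := hpos (2 * n - 2) (by omega)
  rcases hstep 1 le_rfl (by omega) with h12 | h12
  · -- ascending
    have hU := hup h12
    obtain ⟨s, hs⟩ : ∃ s, (v 1).1 = s + 1 := ⟨(v 1).1 - 1, by omega⟩
    have hv0 : ∃ a : Bool, (a = true → D (s + 1) = true) ∧ v 0 = if a = true then (s + 1, true) else (s, false) := by
      rcases spine_nbr D _ _ hfirst' with h | ⟨hp, h⟩ | ⟨h, hD⟩
      · exfalso
        have : v 0 = v 2 := by
          rw [h, hsp 2 (by omega) (by omega)]
          congr 1
          rw [h12]
        have := hinj 0 (by omega) 2 (by omega) this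
        omega
      · refine ⟨false, by simp, ?_⟩
        rw [h, hs]; simp
      · refine ⟨true, fun _ => by rw [← hs]; exact hD, ?_⟩
        rw [h, hs]; simp
    have hvl : ∃ b : Bool, (b = true → D (s + 2 * n - 2) = true) ∧
        v (2 * n - 1) = if b = true then (s + 2 * n - 2, true) else (s + 2 * n - 1, false) := by
      have e := hU (2 * n - 2) (by omega) (by omega)
      have e' : (v (2 * n - 2)).1 = s + 2 * n - 2 := by omega
      rw [e'] at hlast
      rcases spine_nbr D _ _ hlast with h | ⟨hp, h⟩ | ⟨h, hD⟩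
      · refine ⟨false, by simp, ?_⟩
        rw [h]; simp; omega
      · exfalso
        have hn3 : 1 ≤ 2 * n - 3 := by omega
        have e2 := hU (2 * n - 3) hn3 (by omega)
        have e3 : (v (2 * n - 3)).1 = s + 2 * n - 2 - 1 := by omega
        have : v (2 * n - 1) = v (2 * n - 3) := by
          rw [h, hsp (2 * n - 3) hn3 (by omega), e3]
        have := hinj (2 * n - 1) (by omega) (2 * n - 3) (by omega) this
        omega
      · exact ⟨true, fun _ => hD, by rw [h]; simp⟩
    obtain ⟨a, ha, hva⟩ := hv0
    obtain ⟨b, hb, hvb⟩ := hvl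
    refine ⟨a, b, s, ha, hb, Or.inl ?_⟩
    intro i hi
    rcases (by omega : i = 0 ∨ i = 2 * n - 1 ∨ (1 ≤ i ∧ i + 1 < 2 * n)) with h | h | ⟨h1, h2⟩
    · rw [h, vtx_zero, hva]
    · rw [h, vtx_last _ _ _ _ (by omega), hvb]
    · rw [vtx_mid _ _ _ _ _ (by omega) (by omega), hsp i h1 h2]
      congr 1
      have := hU i h1 h2
      omega
  · -- descending
    have hU := hdown h12
    have el := hU (2 * n - 2) (by omega) (by omega)
    obtain ⟨s, hs⟩ : ∃ s, (v (2 * n - 2)).1 = s + 1 := ⟨(v (2 * n - 2)).1 - 1, by omega⟩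
    have hv0 : ∃ a : Bool, (a = true → D (s + 1) = true) ∧
        v (2 * n - 1) = if a = true then (s + 1, true) else (s, false) := by
      rw [hs] at hlast
      rcases spine_nbr D _ _ hlast with h | ⟨hp, h⟩ | ⟨h, hD⟩
      · exfalso
        have hn3 : 1 ≤ 2 * n - 3 := by omega
        have e2 := hU (2 * n - 3) hn3 (by omega)
        have : v (2 * n - 1) = v (2 * n - 3) := by
          rw [h, hsp (2 * n - 3) hn3 (by omega)]
          congr 1
          omega
        have := hinj (2 * n - 1) (by omega) (2 * n - 3) (by omega) this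
        omega
      · refine ⟨false, by simp, ?_⟩
        rw [h]; simp
      · exact ⟨true, fun _ => hD, by rw [h]; simp⟩
    have hvl : ∃ b : Bool, (b = true → D (s + 2 * n - 2) = true) ∧
        v 0 = if b = true then (s + 2 * n - 2, true) else (s + 2 * n - 1, false) := by
      have e' : (v 1).1 = s + 2 * n - 2 := by omega
      rw [e'] at hfirst'
      rcases spine_nbr D _ _ hfirst' with h | ⟨hp, h⟩ | ⟨h, hD⟩
      · refine ⟨false, by simp, ?_⟩
        rw [h]; simp; omega
      · exfalso
        have h12' : (v 2).1 + 1 = (v 1).1 := h12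
        have e3 : (v 2).1 = s + 2 * n - 2 - 1 := by omega
        have : v 0 = v 2 := by
          rw [h, hsp 2 (by omega) (by omega), e3]
        have := hinj 0 (by omega) 2 (by omega) this
        omega
      · exact ⟨true, fun _ => hD, by rw [h]; simp⟩
    obtain ⟨a, ha, hva⟩ := hv0
    obtain ⟨b, hb, hvb⟩ := hvl
    refine ⟨a, b, s, ha, hb, Or.inr ?_⟩
    intro i hi
    rcases (by omega : i = 0 ∨ i = 2 * n - 1 ∨ (1 ≤ i ∧ i + 1 < 2 * n)) with h | h | ⟨h1, h2⟩
    · rw [h, vtx_zero, Nat.sub_zero, hva]
    · rw [h, vtx_last _ _ _ _ (by omega), Nat.sub_self, hvb]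
    · rw [vtx_mid _ _ _ _ _ (by omega) (by omega), hsp (2 * n - 1 - i) (by omega) (by omega)]
      congr 1
      have := hU (2 * n - 1 - i) (by omega) (by omega)
      omega

end Pool.Agent.MP87579d
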