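import Pool.Agent.Lib.MP_87579d_co.Aug

set_option autoImplicit false

namespace Pool.Agent.MP87579d

theorem chkAll_spec (A0 A1 A2 L0 L1 L2 : ℕ) : ∀ n, chkAll A0 A1 A2 L0 L1 L2 n = true →
    ∀ q, 2 ≤ q → q ≤ n + 1 → chkq A0 A1 A2 L0 L1 L2 q = true := by
  intro n
  induction n with
  | zero => intro _ q h1 h2; omega
  | succ n ih =>
    intro h q h1 h2
    simp only [chkAll, Bool.and_eq_true] at h
    rcases Nat.lt_or_ge q (n + 2) with h3 | h3
    · exact ih h.2 q h1 (by omega)
    · have : q = n + 2 := by omega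
      rw [this]; exact h.1

theorem testBit_sel (A0 A1 A2 c s : ℕ) (hc : c < 3)
    (h : (if c = 0 then A0 else if c = 1 then A1 else A2).testBit s = true) :
    (A0 ||| (A1 ||| A2)).testBit s = true := by
  simp only [Nat.testBit_lor, Bool.or_eq_true]
  rcases (by omega : c = 0 ∨ c = 1 ∨ c = 2) with rfl | rfl | rfl
  · left; simpa using h
  · right; left; simpa using h
  · right; right; simpa using h

theorem small_aug (U : ℕ → ℕ) (hU : ∀ i, U i < 3) (n : ℕ) (hn : 4 ≤ n) (hSF : SF U n)
    (a b : Bool) (s q : ℕ) (hq2 : 2 ≤ q) (hq : q ≤ 96) : ¬ Aug (Wd U) (Lf U) a b s q := by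
  rintro ⟨h1, h2, h3⟩
  set k := s / 48 with hk
  set r := s % 48 with hr
  have hs : s = 48 * k + r := by omega
  have hr48 : r < 48 := by omega
  -- the window is square free
  have hne : ∀ i, U i ≠ U (i + 1) := by
    intro i h
    apply hSF i 1 (by omega) (by omega)
    intro t ht
    have : t = 0 := by omega
    subst this
    exact h
  have hne2 : ∀ i, ¬ (U i = U (i + 2) ∧ U (i + 1) = U (i + 3)) := by
    rintro i ⟨ha, hb⟩
    apply hSF i 2 (by omega) (by omega)
    intro t ht
    rcases (by omega : t = 0 ∨ t = 1) with rfl | rfl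
    · exact ha
    · exact hb
  have hchk := chkWord_all (U k) (hU _) (U (k + 1)) (hU _) (U (k + 2)) (hU _) (U (k + 3)) (hU _)
    (U (k + 4)) (hU _)
  have hsf : sf5 (U k) (U (k + 1)) (U (k + 2)) (U (k + 3)) (U (k + 4)) = true := by
    have beq_false : ∀ x y : ℕ, x ≠ y → Nat.beq x y = false := by
      intro x y hxy
      rw [Bool.eq_false_iff]; intro h; exact hxy (Nat.eq_of_beq_eq_true h)
    have band : ∀ x y z t : ℕ, ¬ (x = y ∧ z = t) → (Nat.beq x y && Nat.beq z t) = false := by
      intro x y z t h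
      rw [Bool.eq_false_iff]
      intro h'
      rw [Bool.and_eq_true] at h'
      exact h ⟨Nat.eq_of_beq_eq_true h'.1, Nat.eq_of_beq_eq_true h'.2⟩
    unfold sf5
    rw [beq_false _ _ (hne k), beq_false _ _ (hne (k + 1)), beq_false _ _ (hne (k + 2)),
      beq_false _ _ (hne (k + 3)), band _ _ _ _ (hne2 k), band _ _ _ _ (hne2 (k + 1))]
    rfl
  rw [hsf, Bool.not_true, Bool.false_or] at hchk
  have hq' := chkAll_spec _ _ _ _ _ _ _ hchk q hq2 (by omega)
  set W5 := word5 (U k) (U (k + 1)) (U (k + 2)) (U (k + 3)) (U (k + 4)) with hW5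
  set L5 := leaf5 (U k) (U (k + 1)) (U (k + 2)) (U (k + 3)) (U (k + 4)) with hL5
  have hWb : ∀ i < 240, ∀ c, Wd U (48 * k + i) = c → (msk c W5).testBit i = true := by
    intro i hi c hc
    rw [msk_testBit, hW5, word5_get U k i hi, hc]
    simp
  have hLb : ∀ i < 240, ∀ c, Lf U (48 * k + i) = c → (msk c L5).testBit i = true := by
    intro i hi c hc
    rw [msk_testBit, hL5, leaf5_get U k i hi, hc]
    simp
  have hfalse : chkq (msk 0 W5) (msk 1 W5) (msk 2 W5) (msk 0 L5) (msk 1 L5) (msk 2 L5) q = false := by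
    unfold chkq
    apply runz_spec _ _ _ r
    · rw [Nat.testBit_land, Bool.and_eq_true]
      constructor
      · -- left end
        have hb1 : ∀ c, Wd U (s + q) = c → (msk c W5).testBit (q + r) = true := by
          intro c hc
          exact hWb (q + r) (by omega) c (by rw [← hc, hs]; congr 1; omega)
        have hb2 : ∀ c, Wd U (s + q) = c → ((msk c W5).testBit r || (msk c L5).testBit (1 + r)) = true := by
          intro c hc
          rw [Bool.or_eq_true]
          cases a
          · left
            simp only [Bool.false_eq_true, if_false] at h1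
            exact hWb r (by omega) c (by rw [← hs, ← h1, hc])
          · right
            simp only [if_true] at h1
            exact hLb (1 + r) (by omega) c (by rw [show 48 * k + (1 + r) = s + 1 by omega, ← h1, hc])
        unfold mX
        apply testBit_sel _ _ _ (Wd U (s + q)) _ (Wd_lt _ _)
        rcases (by have := Wd_lt U (s + q); omega : Wd U (s + q) = 0 ∨ Wd U (s + q) = 1 ∨ Wd U (s + q) = 2) with h0 | h0 | h0
        · rw [if_pos h0, Nat.testBit_land, Nat.testBit_shiftRight, Nat.testBit_lor,
            Nat.testBit_shiftRight, hb1 0 h0, hb2 0 h0]; rfl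
        · rw [if_neg (by omega), if_pos h0, Nat.testBit_land, Nat.testBit_shiftRight,
            Nat.testBit_lor, Nat.testBit_shiftRight, hb1 1 h0, hb2 1 h0]; rfl
        · rw [if_neg (by omega), if_neg (by omega), Nat.testBit_land, Nat.testBit_shiftRight,
            Nat.testBit_lor, Nat.testBit_shiftRight, hb1 2 h0, hb2 2 h0]; rfl
      · -- right end
        have hb1 : ∀ c, Wd U (s + q - 1) = c → (msk c W5).testBit (q - 1 + r) = true := by
          intro c hc
          exact hWb (q - 1 + r) (by omega) c (by rw [← hc, hs]; congr 1; omega)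
        have hb2 : ∀ c, Wd U (s + q - 1) = c →
            ((msk c W5).testBit (2 * q - 1 + r) || (msk c L5).testBit (2 * q - 2 + r)) = true := by
          intro c hc
          rw [Bool.or_eq_true]
          cases b
          · left
            simp only [Bool.false_eq_true, if_false] at h2
            exact hWb _ (by omega) c (by
              rw [show 48 * k + (2 * q - 1 + r) = s + 2 * q - 1 by omega, ← h2, hc])
          · right
            simp only [if_true] at h2
            exact hLb _ (by omega) c (by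
              rw [show 48 * k + (2 * q - 2 + r) = s + 2 * q - 2 by omega, ← h2, hc])
        unfold mY
        apply testBit_sel _ _ _ (Wd U (s + q - 1)) _ (Wd_lt _ _)
        rcases (by have := Wd_lt U (s + q - 1); omega :
          Wd U (s + q - 1) = 0 ∨ Wd U (s + q - 1) = 1 ∨ Wd U (s + q - 1) = 2) with h0 | h0 | h0
        · rw [if_pos h0, Nat.testBit_land, Nat.testBit_shiftRight, Nat.testBit_lor,
            Nat.testBit_shiftRight, Nat.testBit_shiftRight, hb1 0 h0, hb2 0 h0]; rfl
        · rw [if_neg (by omega), if_pos h0, Nat.testBit_land, Nat.testBit_shiftRight,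
            Nat.testBit_lor, Nat.testBit_shiftRight, Nat.testBit_shiftRight, hb1 1 h0, hb2 1 h0]; rfl
        · rw [if_neg (by omega), if_neg (by omega), Nat.testBit_land, Nat.testBit_shiftRight,
            Nat.testBit_lor, Nat.testBit_shiftRight, Nat.testBit_shiftRight, hb1 2 h0, hb2 2 h0]; rfl
    · intro j hj1 hj2
      have hw := h3 (s + j) (by omega) (by omega)
      have hb1 : ∀ c, Wd U (s + j) = c → (msk c W5).testBit (r + j) = true := by
        intro c hc
        exact hWb _ (by omega) c (by rw [← hc, hs]; congr 1; omega)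
      have hb2 : ∀ c, Wd U (s + j) = c → (msk c W5).testBit (q + (r + j)) = true := by
        intro c hc
        exact hWb _ (by omega) c (by rw [← hc, hw, hs]; congr 1; omega)
      unfold mM
      apply testBit_sel _ _ _ (Wd U (s + j)) _ (Wd_lt _ _)
      rcases (by have := Wd_lt U (s + j); omega :
          Wd U (s + j) = 0 ∨ Wd U (s + j) = 1 ∨ Wd U (s + j) = 2) with h0 | h0 | h0
      · rw [if_pos h0, Nat.testBit_land, Nat.testBit_shiftRight, hb1 0 h0, hb2 0 h0]; rfl
      · rw [if_neg (by omega), if_pos h0, Nat.testBit_land, Nat.testBit_shiftRight, hb1 1 h0,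
          hb2 1 h0]; rfl
      · rw [if_neg (by omega), if_neg (by omega), Nat.testBit_land, Nat.testBit_shiftRight,
          hb1 2 h0, hb2 2 h0]; rfl
  rw [hfalse] at hq'
  exact Bool.false_ne_true hq'

theorem large_aug (U : ℕ → ℕ) (hU : ∀ i, U i < 3) (n : ℕ) (hSF : SF U n)
    (a b : Bool) (s q : ℕ) (hq : 97 ≤ q) (hqn : 2 * q ≤ 48 * n) :
    ¬ Aug (Wd U) (Lf U) a b s q := by
  rintro ⟨-, -, h3⟩
  obtain ⟨m, d, hqmd, hd⟩ : ∃ m d, q = 48 * m + d ∧ d < 48 := ⟨q / 48, q % 48, by omega, by omega⟩
  rcases Nat.eq_zero_or_pos d with hd0 | hd0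
  · -- aligned
    subst hd0
    set k0 := (s + 7) / 48 with hk0
    have hsq : ∀ i < m, U (k0 + i) = U (k0 + i + m) := by
      intro i hi
      rcases Nat.lt_or_ge i (m - 1) with hi' | hi'
      · apply disc2 _ (hU _) _ (hU _)
        intro j hj
        rw [← Wd_block U (k0 + i) (41 + j) (by omega), ← Wd_block U (k0 + i + m) (41 + j) (by omega)]
        have := h3 (48 * (k0 + i) + (41 + j)) (by omega) (by omega)
        rw [this]
        congr 1
        rw [hqmd]; ring
      · apply disc1 _ (hU _) _ (hU _)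
        intro j hj
        rw [← Wd_block U (k0 + i) (31 + j) (by omega), ← Wd_block U (k0 + i + m) (31 + j) (by omega)]
        have := h3 (48 * (k0 + i) + (31 + j)) (by omega) (by omega)
        rw [this]
        congr 1
        rw [hqmd]; ring
    exact hSF k0 m (by omega) (by omega) hsq
  · -- not aligned
    set k1 := (s + 48) / 48 with hk1
    have hs := sync_all (U k1) (hU _) (U (k1 + m)) (hU _) (U (k1 + m + 1)) (hU _)
    unfold syncOk at hs
    rw [List.all_eq_true] at hs
    have := hs (d - 1) (List.mem_range.mpr (by omega))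
    rw [show d - 1 + 1 = d by omega, eqTake_of] at this
    · simp at this
    · intro j hj
      refine ⟨Wd U (48 * k1 + j), ?_, ?_⟩
      · rw [bl_getElem? _ _ hj, Wd_block _ _ _ hj]
      · rw [List.getElem?_drop]
        have h4 := h3 (48 * k1 + j) (by omega) (by omega)
        rw [h4]
        rcases Nat.lt_or_ge (d + j) 48 with h5 | h5
        · rw [List.getElem?_append_left (by rw [bl_length]; omega), bl_getElem? _ _ h5,
            ← Wd_block _ _ _ h5]
          congr 2
          rw [hqmd]; ring
        · rw [List.getElem?_append_right (by rw [bl_length]; omega), bl_length,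
            bl_getElem? _ _ (by omega), ← Wd_block _ _ _ (by omega)]
          congr 2
          omega

theorem no_aug (U : ℕ → ℕ) (hU : ∀ i, U i < 3) (n : ℕ) (hn : 4 ≤ n) (hSF : SF U n)
    (a b : Bool) (s q : ℕ) (hq2 : 2 ≤ q) (hqn : 2 * q ≤ 48 * n) :
    ¬ Aug (Wd U) (Lf U) a b s q := by
  rcases Nat.lt_or_ge q 97 with h | h
  · exact small_aug U hU n hn hSF a b s q hq2 (by omega)
  · exact large_aug U hU n hSF a b s q h hqn

theorem bl_adj : ∀ x < 3, ∀ j < 47, (bl x).getD j 0 ≠ (bl x).getD (j + 1) 0 := by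
  decide +kernel

theorem bl_ends : ∀ x < 3, (bl x).getD 47 0 = 1 ∧ (bl x).getD 0 0 = 0 := by
  decide +kernel

theorem lv_ne : ∀ x < 3, ∀ j < 48, (lv x).getD j 3 ≠ (bl x).getD j 0 ∧ (lv x).getD j 3 < 4 := by
  decide +kernel

theorem Wd_adj (U : ℕ → ℕ) (hU : ∀ i, U i < 3) (i : ℕ) : Wd U i ≠ Wd U (i + 1) := by
  obtain ⟨k, j, hi, hj⟩ : ∃ k j, i = 48 * k + j ∧ j < 48 := ⟨i / 48, i % 48, by omega, by omega⟩
  rcases Nat.lt_or_ge j 47 with h | h
  · rw [hi, show 48 * k + j + 1 = 48 * k + (j + 1) by omega, Wd_block _ _ _ hj,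
      Wd_block _ _ _ (by omega)]
    exact bl_adj _ (hU _) j h
  · have : j = 47 := by omega
    subst this
    rw [hi, show 48 * k + 47 + 1 = 48 * (k + 1) + 0 by omega, Wd_block _ _ _ hj,
      Wd_block _ _ _ (by omega), (bl_ends _ (hU _)).1, (bl_ends _ (hU _)).2]
    decide

theorem Lf_ne (U : ℕ → ℕ) (hU : ∀ i, U i < 3) (i : ℕ) : Lf U i ≠ Wd U i ∧ Lf U i < 4 := by
  obtain ⟨k, j, hi, hj⟩ : ∃ k j, i = 48 * k + j ∧ j < 48 := ⟨i / 48, i % 48, by omega, by omega⟩
  rw [hi, Wd_block _ _ _ hj, Lf_block _ _ _ hj]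
  exact lv_ne _ (hU _) j hj

theorem SF_step (U : ℕ → ℕ) (hU : ∀ i, U i < 3) (n : ℕ) (hn : 4 ≤ n) (hSF : SF U n) :
    SF (Wd U) (48 * n) := by
  intro s q hq hqn h
  rcases Nat.lt_or_ge q 2 with h1 | h1
  · have : q = 1 := by omega
    subst this
    exact Wd_adj U hU s (h 0 (by omega))
  · apply no_aug U hU n hn hSF false false s q h1 hqn
    refine ⟨?_, ?_, ?_⟩
    · simp only [Bool.false_eq_true, if_false]
      exact (h 0 (by omega)).symm
    · simp only [Bool.false_eq_true, if_false]
      have := h (q - 1) (by omega)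
      rw [show s + (q - 1) = s + q - 1 by omega, show s + q - 1 + q = s + 2 * q - 1 by omega] at this
      exact this
    · intro t ht1 ht2
      have := h (t - s) (by omega)
      rw [show s + (t - s) = t by omega] at this
      exact this

/-- the words used: iterated images of the periodic word `012012...` -/
def UU : ℕ → ℕ → ℕ
  | 0 => fun i => i % 3
  | k + 1 => Wd (UU k)

theorem UU_lt (k i : ℕ) : UU k i < 3 := by
  cases k with
  | zero => simp only [UU]; omega
  | succ k => exact Wd_lt _ _

theorem SF_UU (k : ℕ) : SF (UU k) (4 * 48 ^ k) := by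
  induction k with
  | zero =>
    intro s q hq hq2 h
    rw [pow_zero, mul_one] at hq2
    have h0 := h 0 hq
    simp only [UU, Nat.add_zero] at h0
    omega
  | succ k ih =>
    have h1 : 4 ≤ 4 * 48 ^ k := by
      have := Nat.one_le_pow k 48 (by norm_num)
      omega
    have := SF_step (UU k) (UU_lt k) _ h1 ih
    rw [pow_succ, show 4 * (48 ^ k * 48) = 48 * (4 * 48 ^ k) by ring]
    exact this

theorem UU_period (k : ℕ) : ∀ i, UU k (i + 3 * 48 ^ k) = UU k i := by
  induction k with
  | zero => intro i; simp only [UU]; omega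
  | succ k ih =>
    intro i
    simp only [UU, Wd]
    rw [show (i + 3 * 48 ^ (k + 1)) / 48 = i / 48 + 3 * 48 ^ k by rw [pow_succ]; omega,
      show (i + 3 * 48 ^ (k + 1)) % 48 = i % 48 by rw [pow_succ]; omega, ih]

end Pool.Agent.MP87579d
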